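import Pool.Agent.P.MP_a66f6f_co.Ped.Sym

/-!
The averaged inequalities and the telescoping sum.
-/

namespace Pool.Agent.P.MP_a66f6f_co.Ped

open Finset

set_option linter.unusedSectionVars false

variable {β : Type*} [DecidableEq β] {m n k : ℕ} (q : ℕ) {C : Finset (Fin m) → Finset β}

theorem sg_window (u : ℤ → ℤ) {Y : Finset ℕ} (h1 : Y ⊆ range m) (h2 : ∀ y ∈ Y, 2 * n ≤ y)
    (hm : 2 * n ≤ m) {t : ℕ} (ht : t < n) :
    sg q C u (Ico t (t + n) ∪ Y) (n + t) = sg q C u (range (n + Y.card)) (n + Y.card) := by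
  have a1 : (Ico t (t + n) ∪ Y).card = n + Y.card := by
    rw [card_union_of_disjoint, Nat.card_Ico, Nat.add_sub_cancel_left]
    refine disjoint_left.2 fun x c1 c2 => ?_
    have := h2 _ c2
    simp only [mem_Ico] at c1
    omega
  rw [sg_eq q C u (union_subset (fun x hx => by simp only [mem_Ico, mem_range] at hx ⊢; omega) h1)
    (by omega) (fun hx => by
      rcases mem_union.1 hx with c | c
      · simp only [mem_Ico] at c; omega
      · have := h2 _ c; omega), a1]

theorem forced_avg (h : Sys C univ n k) {j : ℕ} (hj : 2 * n + j ≤ m) :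
    n * (sg q C (fun x => max x 0) (range (n + j)) (n + j) -
      sg q C (fun x => max (-x) 0) (range (n + j)) (n + j)) ≤
      (q * n - k : ℤ) * Fintype.card (Equiv.Perm (Fin m)) := by
  have h1 : Ico (2 * n) (2 * n + j) ⊆ range m := fun x hx => by
    simp only [mem_Ico, mem_range] at hx ⊢; omega
  have h2 : ∀ y ∈ Ico (2 * n) (2 * n + j), 2 * n ≤ y := fun y hy => (mem_Ico.1 hy).1
  have a1 : ∀ u, ∑ t ∈ range n, sg q C u (Ico t (t + n) ∪ Ico (2 * n) (2 * n + j)) (n + t) =
      n * sg q C u (range (n + j)) (n + j) := fun u => by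
    rw [sum_congr rfl fun t ht => sg_window q u h1 h2 (by omega) (mem_range.1 ht)]
    simp
  rw [mul_sub, ← a1, ← a1, ← sum_sub_distrib]
  simp only [sg, ← sum_sub_distrib, max_zero_sub_max_neg_zero_eq_self]
  rw [sum_comm]
  refine (sum_le_card_nsmul _ _ (q * n - k : ℤ) fun σ _ => forced (h.pull σ)
    (fun x hx => by simp only [mem_Ico, mem_range] at hx ⊢; omega) h2).trans ?_
  rw [card_univ, nsmul_eq_mul, mul_comm]

theorem both_avg0 (h : Sys C univ n k) (hr : (q * n - k : ℤ) < n) (hn : 0 < n) (M : ℕ)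
    (hM : 2 * n + (M + 1) ≤ m) (Z : Finset ℕ) (hZ : ∀ y ∈ Z, 2 * n + (M + 1) ≤ y ∧ y < m) :
    (M + 1) * bs M (fun j => sg q C (fun x => max x 0) (range (n + Z.card + j)) (n + Z.card + j)) -
      n * bs (M + 1) (fun j => sg q C (fun x => max (-x) 0) (range (n + j)) (n + j)) ≤
      2 ^ (M + 1) * ((q * n - k : ℤ) * Fintype.card (Equiv.Perm (Fin m))) := by
  obtain ⟨F, hF⟩ : ∃ F, F = Ico (2 * n) (2 * n + (M + 1)) := ⟨_, rfl⟩
  have h0 : F.card = M + 1 := by simp [hF]
  have h2 : ∀ y ∈ F, 2 * n ≤ y ∧ y < 2 * n + (M + 1) := fun y hy => mem_Ico.1 (hF ▸ hy)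
  have h1 : F ⊆ range m := fun x hx => by have := h2 _ hx; simp only [mem_range]; omega
  have a1 : ∑ i ∈ F, ∑ Y ∈ (F.erase i).powerset, sg q C (fun x => max x 0) ((Ico 0 n ∪ Z) ∪ Y) i =
      (M + 1) * bs M
        (fun j => sg q C (fun x => max x 0) (range (n + Z.card + j)) (n + Z.card + j)) := by
    rw [sum_congr rfl (g := fun _ => bs M
      (fun j => sg q C (fun x => max x 0) (range (n + Z.card + j)) (n + Z.card + j)))]
    · simp [h0]
    intro i hi
    have b0 : (F.erase i).card = M := by rw [card_erase_of_mem hi, h0]; rfl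
    rw [← b0, ← bs_eq]
    refine sum_congr rfl fun Y hY => ?_
    have b1 := mem_powerset.1 hY
    have b2 : ∀ y ∈ Y, y ≠ i ∧ 2 * n ≤ y ∧ y < 2 * n + (M + 1) := fun y hy =>
      ⟨(mem_erase.1 (b1 hy)).1, h2 _ (mem_erase.1 (b1 hy)).2⟩
    have b3 : ((Ico 0 n ∪ Z) ∪ Y).card = n + Z.card + Y.card := by
      rw [card_union_of_disjoint, card_union_of_disjoint, Nat.card_Ico, Nat.sub_zero]
      · refine disjoint_left.2 fun x c1 c2 => ?_
        have := hZ _ c2
        simp only [mem_Ico] at c1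
        omega
      · refine disjoint_left.2 fun x c1 c2 => ?_
        have := b2 _ c2
        rcases mem_union.1 c1 with c | c
        · simp only [mem_Ico] at c; omega
        · have := hZ _ c; omega
    have b4 := h2 _ hi
    rw [sg_eq q C _ (fun x hx => by
      simp only [mem_union, mem_Ico, mem_range] at hx ⊢
      rcases hx with (c | c) | c
      · omega
      · exact (hZ _ c).2
      · have := b2 _ c; omega) (by omega) (fun hx => by
      simp only [mem_union, mem_Ico] at hx
      rcases hx with (c | c) | c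
      · omega
      · have := hZ _ c; omega
      · exact (b2 _ c).1 rfl), b3]
  have a2 : ∑ Y ∈ F.powerset, ∑ t ∈ range n,
      sg q C (fun x => max (-x) 0) (Ico t (t + n) ∪ Y) (n + t) =
      n * bs (M + 1) (fun j => sg q C (fun x => max (-x) 0) (range (n + j)) (n + j)) := by
    rw [← h0, ← bs_eq, mul_sum]
    refine sum_congr rfl fun Y hY => ?_
    have b1 := mem_powerset.1 hY
    rw [sum_congr rfl fun t ht => sg_window q _ (b1.trans h1) (fun y hy => (h2 _ (b1 hy)).1)
      (by omega) (mem_range.1 ht)]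
    simp
  rw [← a1, ← a2]
  have a3 := fun σ : Equiv.Perm (Fin m) => both (q := q) (h.pull σ) hr hn
    (fun x hx => by simp only [mem_Ico, mem_range] at hx ⊢; omega) F Z h1
    (fun y hy => (h2 y hy).1) (fun y hy => by have := hZ y hy; omega)
    (disjoint_left.2 fun x c1 c2 => by have := hZ _ c1; have := h2 _ c2; omega)
  have a4 := sum_le_card_nsmul univ _ _ fun σ _ => a3 σ
  rw [sum_sub_distrib, sum_comm, sum_comm (s := univ) (t := F.powerset), h0, card_univ,
    nsmul_eq_mul] at a4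
  simp only [sum_comm (s := (univ : Finset (Equiv.Perm (Fin m))))] at a4
  simp only [sg]
  linarith

theorem both_avg (h : Sys C univ n k) (hr : (q * n - k : ℤ) < n) (hn : 0 < n) (M : ℕ)
    (h1 : 2 * n ≤ M) (hM : 2 * n + M + 1 ≤ m) :
    M * bs M (fun j => sg q C (fun x => max x 0) (range (n + j)) (n + j) -
      sg q C (fun x => max (-x) 0) (range (n + j)) (n + j)) ≤
      2 * 2 ^ M * ((q * n - k : ℤ) * Fintype.card (Equiv.Perm (Fin m))) := by
  obtain ⟨M, rfl⟩ : ∃ M', M = M' + 1 := ⟨M - 1, by omega⟩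
  have a1 := both_avg0 q h hr hn M (by omega) ∅ (by simp)
  have a2 := both_avg0 q h hr hn M (by omega) {2 * n + (M + 1)} (by simp; omega)
  have a3 := bs_succ M fun j => sg q C (fun x => max x 0) (range (n + j)) (n + j)
  have a4 : 0 ≤ bs (M + 1) fun j => sg q C (fun x => max (-x) 0) (range (n + j)) (n + j) :=
    sum_nonneg fun _ _ => sum_nonneg fun _ _ => le_max_right _ _
  have a5 : (2 * n : ℤ) ≤ M + 1 := by exact_mod_cast h1
  simp only [card_empty, add_zero, card_singleton, add_assoc, add_comm 1] at a1 a2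
  rw [bs_sub, a3]
  push_cast
  nlinarith [mul_le_mul_of_nonneg_right a5 a4]

theorem step (h : Sys C univ n k) (hr : (q * n - k : ℤ) < n) (hn : 0 < n) (M : ℕ)
    (hM : 2 * n + M + 1 ≤ m) :
    ((max M (2 * n) : ℕ) : ℤ) * (bs (M + 1) (fun j => sp q C (range (n + j))) -
      2 * bs M fun j => sp q C (range (n + j))) ≤
      2 * 2 ^ M * ((q * n - k : ℤ) * Fintype.card (Equiv.Perm (Fin m))) := by
  have a1 : bs (M + 1) (fun j => sp q C (range (n + j))) - 2 * bs M (fun j => sp q C (range (n + j)))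
      = bs M (fun j => sg q C (fun x => max x 0) (range (n + j)) (n + j) -
      sg q C (fun x => max (-x) 0) (range (n + j)) (n + j)) := by
    rw [bs_succ]
    simp only [← add_assoc, sp_succ]
    rw [bs_add]
    ring
  rw [a1]
  rcases le_total (2 * n) M with c | c
  · rw [max_eq_left c]
    exact both_avg q h hr hn M c hM
  · rw [max_eq_right c]
    have a2 := bs_le (M := M) fun j hj => forced_avg q h (j := j) (by omega)
    rw [bs_const, bs, ← mul_sum] at a2
    unfold bs
    push_cast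
    linarith

theorem tele (h : Sys C univ n k) (hr : (q * n - k : ℤ) < n) (hn : 0 < n) (A : ℝ) (M₀ : ℕ)
    (h0 : ∀ j, j ≤ M₀ → (sp q C (range (n + j)) : ℝ) ≤
      ((q * n - k : ℤ) * Fintype.card (Equiv.Perm (Fin m)) : ℤ) * A) (M : ℕ) (h1 : M₀ ≤ M)
    (hM : 2 * n + M ≤ m) :
    (bs M (fun j => sp q C (range (n + j))) : ℝ) ≤
      2 ^ M * (((q * n - k : ℤ) * Fintype.card (Equiv.Perm (Fin m)) : ℤ) *
        (A + ∑ j ∈ Ico M₀ M, (1 : ℝ) / (max j (2 * n) : ℕ))) := by
  induction M, h1 using Nat.le_induction with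
  | base =>
    rw [bs, Int.cast_sum, Ico_self, sum_empty, add_zero]
    refine (sum_le_card_nsmul _ _ _ fun Y hY =>
      h0 _ (by simpa using card_le_card (mem_powerset.1 hY))).trans ?_
    rw [card_powerset, card_range, nsmul_eq_mul, Nat.cast_pow, Nat.cast_ofNat]
  | succ M h1 ih =>
    have a1 := ih (by omega)
    have a2 := (Int.cast_le (R := ℝ)).2 (step q h hr hn M (by omega))
    have a3 : (0 : ℝ) < (max M (2 * n) : ℕ) := by
      exact_mod_cast lt_max_of_lt_right (by omega)
    generalize ((q * n - k : ℤ) * Fintype.card (Equiv.Perm (Fin m)) : ℤ) = R at a1 a2 ⊢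
    rw [Int.cast_mul, Int.cast_natCast] at a2
    rw [sum_Ico_succ_top h1]
    generalize ((max M (2 * n) : ℕ) : ℝ) = w at a2 a3 ⊢
    push_cast at a2
    have a4 := (le_div_iff₀' a3).2 a2
    have a5 : (2 : ℝ) * 2 ^ M * R / w = 2 * 2 ^ M * (R * (1 / w)) := by ring
    rw [pow_succ]
    nlinarith

theorem sp_base (h : Sys C univ n k) (hm : n ≤ m) :
    sp q C (range n) ≤ (q * n - k : ℤ) * Fintype.card (Equiv.Perm (Fin m)) := by
  simp only [sp, card_range]
  refine (sum_le_card_nsmul _ _ (q * n - k : ℤ) fun σ _ => ?_).trans ?_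
  · have := (h.pull σ).big (range n) (range_subset_range.2 hm) (card_range _)
    omega
  · rw [card_univ, nsmul_eq_mul, mul_comm]

theorem core (h : Sys C univ n k) (hr : (q * n - k : ℤ) < n) (hn : 0 < n)
    (K : Finset β) (hK : ∀ X, C X ⊆ K) (A : ℝ) (M₀ : ℕ) (hm : 2 * n + M₀ ≤ m)
    (h0 : ∀ j, j ≤ M₀ → (sp q C (range (n + j)) : ℝ) ≤
      ((q * n - k : ℤ) * Fintype.card (Equiv.Perm (Fin m)) : ℤ) * A) :
    (q * m - K.card : ℝ) ≤
      2 * (q * n - k) * (A + ∑ j ∈ Ico M₀ (m - 2 * n), (1 : ℝ) / (max j (2 * n) : ℕ)) := by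
  obtain ⟨s, hs⟩ := Nat.exists_eq_add_of_le (show 2 * n ≤ m by omega)
  have e : m - 2 * n = s := by omega
  have a1 := tele q h hr hn A M₀ h0 s (by omega) hs.ge
  have a2 : bs s (fun _ => (q * m - K.card : ℤ) * Fintype.card (Equiv.Perm (Fin m))) ≤
      bs s fun j => sp q C (range (n + j)) + sp q C (range (n + (s - j))) := by
    refine bs_le fun j hj => ?_
    have b1 : Ico (n + j) m ⊆ range m := fun x hx => mem_range.2 (mem_Ico.1 hx).2
    have b2 := sp_eq q C b1
    have b3 : (Ico (n + j) m).card = n + (s - j) := by rw [Nat.card_Ico]; omega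
    rw [b3] at b2
    rw [← b2, sp, sp, ← sum_add_distrib, b3, card_range, mul_comm, ← nsmul_eq_mul, ← card_univ]
    refine card_nsmul_le_sum _ _ _ fun σ _ => ?_
    have b4 := (h.pull σ).disj (range (n + j)) (Ico (n + j) m) (disjoint_left.2 fun x c1 c2 => by
      simp only [mem_Ico, mem_range] at c1 c2; omega)
    have b5 := card_le_card (union_subset (hK (pull σ (range (n + j)))) (hK (pull σ (Ico (n + j) m))))
    rw [card_union_of_disjoint b4] at b5
    have b6 : (m : ℤ) = (n + j : ℕ) + (n + (s - j) : ℕ) := by omega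
    have b7 : ((C (pull σ (range (n + j)))).card : ℤ) + (C (pull σ (Ico (n + j) m))).card ≤
        K.card := by exact_mod_cast b5
    rw [b6]
    linarith
  rw [bs_const, bs_add, bs_rev s fun j => sp q C (range (n + j))] at a2
  have a3 := (Int.cast_le (R := ℝ)).2 a2
  have a4 : (0 : ℝ) < 2 ^ s * Fintype.card (Equiv.Perm (Fin m)) := by
    have : 0 < Fintype.card (Equiv.Perm (Fin m)) := Fintype.card_pos
    positivity
  rw [e]
  push_cast at a1 a3
  refine le_of_mul_le_mul_left ?_ a4
  push_cast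
  nlinarith

end Pool.Agent.P.MP_a66f6f_co.Ped
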