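import Mathlib

/-!
Product measures on the cube of subsets: cross intersecting families and a tail bound.
-/

namespace Pool.Agent.P.MP_a66f6f_co.Ped

open Finset

set_option linter.unusedSectionVars false

variable {α : Type*} [DecidableEq α]

/-- closed under taking supersets -/
def Up (P : Finset α → Prop) : Prop := ∀ X Y, X ⊆ Y → P X → P Y

open Classical in
/-- the `p`-biased measure of a family of subsets of `V` -/
noncomputable def mu (p : ℝ) (V : Finset α) (P : Finset α → Prop) : ℝ :=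
  ∑ Y ∈ V.powerset, if P Y then p ^ Y.card * (1 - p) ^ (V.card - Y.card) else 0

theorem mu_insert (p : ℝ) {V : Finset α} {a : α} (ha : a ∉ V) (P : Finset α → Prop) :
    mu p (insert a V) P = (1 - p) * mu p V P + p * mu p V fun Y => P (insert a Y) := by
  unfold mu
  rw [sum_powerset_insert ha, mul_sum, mul_sum, card_insert_of_notMem ha]
  congr 1
  · refine sum_congr rfl fun Y hY => ?_
    have := card_le_card (mem_powerset.1 hY)
    rw [show V.card + 1 - Y.card = V.card - Y.card + 1 by omega]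
    split_ifs
    · ring
    · simp
  · refine sum_congr rfl fun Y hY => ?_
    rw [card_insert_of_notMem fun h => ha (mem_powerset.1 hY h), Nat.add_sub_add_right]
    split_ifs
    · ring
    · simp

variable {p : ℝ}

theorem mu_mono (h0 : 0 ≤ p) (h1 : p ≤ 1) (V : Finset α) {P Q : Finset α → Prop}
    (h : ∀ Y, P Y → Q Y) : mu p V P ≤ mu p V Q := by
  have h2 : 0 ≤ 1 - p := by linarith
  refine sum_le_sum fun Y _ => ?_
  split_ifs with c1 c2
  · rfl
  · exact absurd (h Y c1) c2
  · positivity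
  · rfl

theorem mu_nonneg (h0 : 0 ≤ p) (h1 : p ≤ 1) (V : Finset α) (P : Finset α → Prop) :
    0 ≤ mu p V P := by
  have h2 : 0 ≤ 1 - p := by linarith
  refine sum_nonneg fun Y _ => ?_
  split_ifs
  · positivity
  · rfl

theorem mu_le_one (h0 : 0 ≤ p) (h1 : p ≤ 1) (V : Finset α) (P : Finset α → Prop) :
    mu p V P ≤ 1 := by
  refine (mu_mono h0 h1 V (Q := fun _ => True) fun _ _ => trivial).trans ?_
  simp only [mu, if_true]
  rw [sum_pow_mul_eq_add_pow]
  simp

theorem cross_alg {p q A a0 a1 b0 b1 : ℝ} (hp : 0 ≤ p) (hq : 0 ≤ q) (e : p + q = 1)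
    (h0 : 0 ≤ a0) (h1 : a0 ≤ a1) (h2 : 0 ≤ b0) (h3 : b0 ≤ b1) (hA : 0 ≤ A)
    (c1 : a0 * b1 ≤ A) (c2 : a1 * b0 ≤ A) (c3 : p ^ 2 * (a1 * b1) ≤ q ^ 2 * A) :
    (q * a0 + p * a1) * (q * b0 + p * b1) ≤ A := by
  have k : q ^ 2 * (a0 * b0) + p ^ 2 * (a1 * b1) ≤ (p ^ 2 + q ^ 2) * A := by
    rcases le_or_gt (a1 * b1) A with c | c
    · have : a0 * b0 ≤ A := (mul_le_mul_of_nonneg_left h3 h0).trans c1
      nlinarith [mul_le_mul_of_nonneg_left c (sq_nonneg p),
        mul_le_mul_of_nonneg_left this (sq_nonneg q)]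
    · have d0 : 0 < a1 * b1 := hA.trans_lt c
      have d1 : a0 * b0 * (a1 * b1) ≤ A * A :=
        calc _ = a0 * b1 * (a1 * b0) := by ring
          _ ≤ _ := mul_le_mul c1 c2 (mul_nonneg (h0.trans h1) h2) hA
      generalize a1 * b1 = P at *
      generalize a0 * b0 = x at *
      refine le_of_mul_le_mul_right ?_ d0
      nlinarith [mul_nonneg (sub_nonneg.2 c.le) (sub_nonneg.2 c3),
        mul_le_mul_of_nonneg_left d1 (sq_nonneg q)]
  have k2 : (1 : ℝ) = p ^ 2 + q ^ 2 + 2 * (p * q) := by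
    rw [← one_pow 2, ← e]; ring
  nlinarith [mul_le_mul_of_nonneg_left c1 (mul_nonneg hp hq),
    mul_le_mul_of_nonneg_left c2 (mul_nonneg hp hq)]

/-- the product of the measures of two cross `t`-intersecting families -/
theorem mu_cross (h0 : 0 ≤ p) (h1 : p < 1) (V : Finset α) (P Q : Finset α → Prop) (t : ℕ)
    (hP : Up P) (hQ : Up Q) (h : ∀ X Y, X ⊆ V → Y ⊆ V → P X → Q Y → t ≤ (X ∩ Y).card) :
    mu p V P * mu p V Q ≤ (p / (1 - p)) ^ (2 * t) := by
  have hq : 0 < 1 - p := by linarith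
  induction V using Finset.induction_on generalizing P Q t with
  | empty =>
    rcases t with _ | t
    · simpa using mul_le_one₀ (mu_le_one h0 h1.le _ P) (mu_nonneg h0 h1.le _ Q)
        (mu_le_one h0 h1.le _ Q)
    · have : mu p ∅ P * mu p ∅ Q = 0 := by
        by_cases c1 : P ∅
        · by_cases c2 : Q ∅
          · simpa using h ∅ ∅ Subset.rfl Subset.rfl c1 c2
          · simp [mu, c2]
        · simp [mu, c1]
      rw [this]
      positivity
  | insert a V ha ih =>
    rcases t with _ | t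
    · simpa using mul_le_one₀ (mu_le_one h0 h1.le _ P) (mu_nonneg h0 h1.le _ Q)
        (mu_le_one h0 h1.le _ Q)
    have u1 : Up fun Y => P (insert a Y) := fun X Y e => hP _ _ (insert_subset_insert _ e)
    have u2 : Up fun Y => Q (insert a Y) := fun X Y e => hQ _ _ (insert_subset_insert _ e)
    have s0 : ∀ X, X ⊆ V → X ⊆ insert a V := fun X e => e.trans (subset_insert _ _)
    have c1 := ih P _ (t + 1) hP u2 fun X Y e1 e2 d1 d2 => by
      have := h _ _ (s0 X e1) (insert_subset_insert _ e2) d1 d2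
      rwa [inter_insert_of_notMem fun hx => ha (e1 hx)] at this
    have c2 := ih _ Q (t + 1) u1 hQ fun X Y e1 e2 d1 d2 => by
      have := h _ _ (insert_subset_insert _ e1) (s0 Y e2) d1 d2
      rwa [insert_inter_of_notMem fun hx => ha (e2 hx)] at this
    have c3 := ih _ _ t u1 u2 fun X Y e1 e2 d1 d2 => by
      have := h _ _ (insert_subset_insert _ e1) (insert_subset_insert _ e2) d1 d2
      rw [← insert_inter_distrib] at this
      have := card_insert_le a (X ∩ Y)
      omega
    rw [mu_insert p ha, mu_insert p ha]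
    refine cross_alg h0 hq.le (by ring) (mu_nonneg h0 h1.le _ _)
      (mu_mono h0 h1.le _ fun Y => hP _ _ (subset_insert _ _)) (mu_nonneg h0 h1.le _ _)
      (mu_mono h0 h1.le _ fun Y => hQ _ _ (subset_insert _ _)) (by positivity) c1 c2 ?_
    refine (mul_le_mul_of_nonneg_left c3 (sq_nonneg p)).trans (le_of_eq ?_)
    rw [mul_add, pow_add, mul_one]
    generalize (p / (1 - p)) ^ (2 * t) = w
    field_simp

theorem mu_tail (h0 : 0 ≤ p) (h1 : p ≤ 1) (V : Finset α) (l : ℕ) (hl : 1 ≤ l)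
    (h : 4 * l ≤ p * V.card) : 1 / 2 ≤ mu p V fun Y => l ≤ Y.card := by
  have hq : 0 ≤ 1 - p := by linarith
  have a1 : ∑ Y ∈ V.powerset, p ^ Y.card * (1 - p) ^ (V.card - Y.card) ≤
      (mu p V fun Y => l ≤ Y.card) +
        2 ^ l * ∑ Y ∈ V.powerset, (p / 2) ^ Y.card * (1 - p) ^ (V.card - Y.card) := by
    rw [mu, mul_sum, ← sum_add_distrib]
    refine sum_le_sum fun Y _ => ?_
    split_ifs with c
    · exact le_add_of_nonneg_right (by positivity)
    · have b1 : (2 : ℝ) ^ Y.card ≤ 2 ^ l := pow_le_pow_right₀ (by norm_num) (by omega)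
      rw [zero_add, ← mul_assoc]
      refine mul_le_mul_of_nonneg_right ?_ (by positivity)
      rw [div_pow, mul_div_assoc', le_div_iff₀ (by positivity), mul_comm]
      exact mul_le_mul_of_nonneg_right b1 (by positivity)
  rw [sum_pow_mul_eq_add_pow, sum_pow_mul_eq_add_pow] at a1
  have a2 : (p / 2 + (1 - p)) ^ V.card ≤ Real.exp (-(p / 2)) ^ V.card :=
    pow_le_pow_left₀ (by linarith) (by linarith [Real.add_one_le_exp (-(p / 2))]) _
  have a3 : Real.exp (-(p / 2)) ^ V.card ≤ Real.exp (-1) ^ (2 * l) := by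
    rw [← Real.exp_nat_mul, ← Real.exp_nat_mul]
    refine Real.exp_le_exp.2 ?_
    push_cast
    linarith
  have a4 : Real.exp (-1) ≤ 1 / 2 := by
    rw [Real.exp_neg, one_div]
    exact inv_anti₀ (by norm_num) (by linarith [Real.add_one_le_exp 1])
  have a5 : Real.exp (-1) ^ (2 * l) ≤ (1 / 2) ^ (2 * l) :=
    pow_le_pow_left₀ (Real.exp_pos _).le a4 _
  have a6 : (2 : ℝ) ^ l * (1 / 2) ^ (2 * l) = (1 / 2) ^ l := by
    rw [two_mul, pow_add, ← mul_assoc, ← mul_pow]
    simp
  have a7 : ((1 : ℝ) / 2) ^ l ≤ (1 / 2) ^ 1 := pow_le_pow_of_le_one (by norm_num) (by norm_num) hl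
  have a8 := mul_le_mul_of_nonneg_left (a2.trans (a3.trans a5)) (show (0 : ℝ) ≤ 2 ^ l by positivity)
  simp only [add_sub_cancel, one_pow, pow_one] at a1 a7
  linarith

end Pool.Agent.P.MP_a66f6f_co.Ped
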