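import Pool.Agent.P.MP_a66f6f_co.Ped.Sym
import Pool.Agent.P.MP_a66f6f_co.Ped.Mu

/-!
Densities of families on the levels of the cube, counted by labellings.
-/

namespace Pool.Agent.P.MP_a66f6f_co.Ped

open Finset

variable {m : ℕ}

open Classical in
/-- the number of labellings for which the set with labels in `X` belongs to the family -/
noncomputable def cnt (P : Finset (Fin m) → Prop) (X : Finset ℕ) : ℝ :=
  ∑ σ : Equiv.Perm (Fin m), if P (pull σ X) then 1 else 0

/-- the number of labellings -/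
noncomputable def fac (m : ℕ) : ℝ := Fintype.card (Equiv.Perm (Fin m))

theorem fac_pos (m : ℕ) : 0 < fac m := Nat.cast_pos.2 Fintype.card_pos

/-- the density of a family on level `j` -/
noncomputable def den (P : Finset (Fin m) → Prop) (j : ℕ) : ℝ := cnt P (range j) / fac m

variable {P Q : Finset (Fin m) → Prop}

theorem cnt_eq (P : Finset (Fin m) → Prop) {X : Finset ℕ} (h : X ⊆ range m) :
    cnt P X = fac m * den P X.card := by
  obtain ⟨π, b1⟩ := exists_perm h
    (range_subset_range.2 (by simpa using card_le_card h)) (card_range _).symm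
  rw [den, mul_div_cancel₀ _ (fac_pos m).ne']
  unfold cnt
  rw [← Equiv.sum_comp (Equiv.mulLeft π)]
  refine sum_congr rfl fun σ _ => ?_
  rw [Equiv.coe_mulLeft, pull_mul b1]

theorem cnt_range (P : Finset (Fin m) → Prop) (j : ℕ) : cnt P (range j) = fac m * den P j := by
  rw [den, mul_div_cancel₀ _ (fac_pos m).ne']

theorem ite_le {a b : Prop} [Decidable a] [Decidable b] (h : a → b) :
    (if a then 1 else 0 : ℝ) ≤ if b then 1 else 0 := by
  split_ifs with c1 c2
  · rfl
  · exact absurd (h c1) c2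
  · norm_num
  · rfl

theorem ite_nn {a : Prop} [Decidable a] : (0 : ℝ) ≤ if a then 1 else 0 := by
  split_ifs <;> norm_num

theorem pull_mono (σ : Equiv.Perm (Fin m)) {X Y : Finset ℕ} (h : X ⊆ Y) : pull σ X ⊆ pull σ Y :=
  fun _ hi => mem_filter.2 ⟨mem_univ _, h (mem_filter.1 hi).2⟩

theorem pull_disj (σ : Equiv.Perm (Fin m)) {X Y : Finset ℕ} (h : Disjoint X Y) :
    Disjoint (pull σ X) (pull σ Y) :=
  disjoint_left.2 fun _ c1 c2 => disjoint_left.1 h (mem_filter.1 c1).2 (mem_filter.1 c2).2

open Classical in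
theorem den_nonneg (P : Finset (Fin m) → Prop) (j : ℕ) : 0 ≤ den P j :=
  div_nonneg (sum_nonneg fun _ _ => ite_nn) (fac_pos m).le

open Classical in
theorem den_le (h : ∀ Y, P Y → Q Y) (j : ℕ) : den P j ≤ den Q j :=
  div_le_div_of_nonneg_right (sum_le_sum fun _ _ => ite_le (h _)) (fac_pos m).le

open Classical in
theorem den_mono (h : Up P) {i j : ℕ} (e : i ≤ j) : den P i ≤ den P j :=
  div_le_div_of_nonneg_right
    (sum_le_sum fun σ _ => ite_le (h _ _ (pull_mono σ (range_subset_range.2 e)))) (fac_pos m).le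

theorem den_part (h : ∀ X Y, P X → P Y → ¬ Disjoint X Y) {t j : ℕ} (e : t * j ≤ m) :
    t * den P j ≤ 1 := by
  classical
  have a1 : ∑ i ∈ range t, cnt P (Ico (i * j) ((i + 1) * j)) = t * (fac m * den P j) := by
    rw [sum_congr rfl (g := fun _ => fac m * den P j)]
    · simp
    intro i hi
    have : (i + 1) * j ≤ t * j := Nat.mul_le_mul_right _ (mem_range.1 hi)
    rw [cnt_eq P fun x hx => by simp only [mem_Ico, mem_range] at hx ⊢; omega, Nat.card_Ico,
      Nat.add_mul, one_mul, Nat.add_sub_cancel_left]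
  have a2 : ∑ i ∈ range t, cnt P (Ico (i * j) ((i + 1) * j)) ≤ fac m := by
    unfold cnt
    rw [sum_comm]
    refine (sum_le_card_nsmul _ _ 1 fun σ _ => ?_).trans (by simp [fac])
    rw [sum_boole, Nat.cast_le_one]
    refine card_le_one.2 fun a ha b hb => ?_
    by_contra c
    refine h _ _ (mem_filter.1 ha).2 (mem_filter.1 hb).2
      (pull_disj σ (disjoint_left.2 fun x c1 c2 => ?_))
    simp only [mem_Ico] at c1 c2
    rcases lt_or_gt_of_ne c with d | d
    · have : (a + 1) * j ≤ b * j := Nat.mul_le_mul_right _ d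
      omega
    · have : (b + 1) * j ≤ a * j := Nat.mul_le_mul_right _ d
      omega
  have := fac_pos m
  rw [a1] at a2
  nlinarith

theorem den_mul (h : Up P) {l i j : ℕ} (hi : i ≤ m) (hj : j ≤ m) (e : l + m ≤ i + j) :
    den P l ≤ den P i * den P j := by
  classical
  have a1 : ∀ π : Equiv.Perm (Fin m), fac m * den P l ≤ ∑ σ : Equiv.Perm (Fin m),
      (if P (pull σ (range i)) then 1 else 0 : ℝ) *
        if P (pull (π * σ) (range j)) then 1 else 0 := fun π => by
    obtain ⟨B, hB⟩ : ∃ B, B = (pull π (range j)).map Fin.valEmbedding := ⟨_, rfl⟩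
    have b1 : ∀ x : Fin m, (π x).val ∈ range j ↔ x.val ∈ B := fun x => by
      rw [hB]
      refine Iff.trans ?_ (mem_map' Fin.valEmbedding).symm
      simp [pull]
    have b2 : B.card = j := by
      rw [hB, card_map, card_pull π (range_subset_range.2 hj), card_range]
    have b3 : B ⊆ range m := fun x hx => by
      obtain ⟨y, -, rfl⟩ := mem_map.1 (hB ▸ hx)
      exact mem_range.2 y.2
    have b4 := card_union_add_card_inter (range i) B
    have b5 := card_le_card (union_subset (range_subset_range.2 hi) b3)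
    rw [card_range] at b4 b5
    have b6 : l ≤ (range i ∩ B).card := by omega
    refine (mul_le_mul_of_nonneg_left (den_mono h b6) (fac_pos m).le).trans ?_
    rw [← cnt_eq P (inter_subset_right.trans b3)]
    refine sum_le_sum fun σ _ => ?_
    rw [pull_mul b1, ite_zero_mul_ite_zero, mul_one]
    exact ite_le fun c => ⟨h _ _ (pull_mono σ inter_subset_left) c,
      h _ _ (pull_mono σ inter_subset_right) c⟩
  have a2 := card_nsmul_le_sum univ _ _ fun π _ => a1 π
  rw [sum_comm] at a2
  have a3 : ∀ σ : Equiv.Perm (Fin m), ∑ π : Equiv.Perm (Fin m),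
      (if P (pull (π * σ) (range j)) then 1 else 0 : ℝ) = fac m * den P j := fun σ => by
    rw [← cnt_range]
    exact Equiv.sum_comp (Equiv.mulRight σ) fun τ => if P (pull τ (range j)) then (1 : ℝ) else 0
  simp only [← mul_sum, a3] at a2
  rw [← sum_mul, card_univ, nsmul_eq_mul] at a2
  have a4 := cnt_range P i
  unfold cnt at a4
  rw [a4] at a2
  have a5 := fac_pos m
  refine le_of_mul_le_mul_left (a := fac m * fac m) ?_ (mul_pos a5 a5)
  change fac m * _ ≤ _ at a2
  linarith

theorem den_le_mu (h : Up P) {p : ℝ} (h0 : 0 ≤ p) (h1 : p ≤ 1) {l : ℕ} (hl : 1 ≤ l)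
    (e : 4 * l ≤ p * m) : den P l ≤ 2 * mu p univ P := by
  classical
  have hq : 0 ≤ 1 - p := by linarith
  have a1 : ∀ σ : Equiv.Perm (Fin m), mu p univ P = ∑ Y ∈ (range m).powerset,
      p ^ Y.card * (1 - p) ^ (m - Y.card) * if P (pull σ Y) then 1 else 0 := fun σ => by
    unfold mu
    symm
    refine sum_bij' (fun Y _ => pull σ Y) (fun S _ => S.image fun i => (σ i).val) (by simp)
      (fun S _ => ?_) (fun Y hY => ?_) (fun S _ => ?_) fun Y hY => ?_
    · refine mem_powerset.2 fun x hx => ?_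
      obtain ⟨y, -, rfl⟩ := mem_image.1 hx
      exact mem_range.2 (σ y).2
    · ext x
      simp only [pull, mem_image, mem_filter, mem_univ, true_and]
      exact ⟨fun ⟨y, c1, c2⟩ => c2 ▸ c1, fun c =>
        ⟨σ.symm ⟨x, mem_range.1 (mem_powerset.1 hY c)⟩, by simpa using c, by simp⟩⟩
    · ext x
      simp only [pull, mem_image, mem_filter, mem_univ, true_and]
      exact ⟨fun ⟨y, c1, c2⟩ => σ.injective (Fin.ext c2) ▸ c1, fun c => ⟨x, c, rfl⟩⟩
    · rw [card_pull σ (mem_powerset.1 hY)]
      simp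
  have a2 : fac m * mu p univ P = ∑ Y ∈ (range m).powerset,
      p ^ Y.card * (1 - p) ^ (m - Y.card) * (fac m * den P Y.card) := by
    have : fac m * mu p univ P = ∑ σ : Equiv.Perm (Fin m), mu p univ P := by simp [fac]
    rw [this, sum_congr rfl fun σ _ => a1 σ, sum_comm]
    refine sum_congr rfl fun Y hY => ?_
    rw [← mul_sum, ← cnt_eq P (mem_powerset.1 hY)]
    rfl
  have a3 := mu_tail h0 h1 (range m) l hl (by rwa [card_range])
  have a4 : (mu p (range m) fun Y => l ≤ Y.card) * (fac m * den P l) ≤ fac m * mu p univ P := by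
    rw [a2, mu, sum_mul, card_range]
    refine sum_le_sum fun Y _ => ?_
    split_ifs with c
    · exact mul_le_mul_of_nonneg_left
        (mul_le_mul_of_nonneg_left (den_mono h c) (fac_pos m).le) (by positivity)
    · rw [zero_mul]
      exact mul_nonneg (by positivity) (mul_nonneg (fac_pos m).le (den_nonneg _ _))
  have a5 := mul_le_mul_of_nonneg_right a3 (mul_nonneg (fac_pos m).le (den_nonneg P l))
  refine le_of_mul_le_mul_left (a := fac m) ?_ (fac_pos m)
  linarith

theorem den_cross (hP : Up P) (hQ : Up Q) (t : ℕ) (h : ∀ X Y, P X → Q Y → t ≤ (X ∩ Y).card)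
    {l : ℕ} (hl : 1 ≤ l) (e : 8 * l ≤ m) :
    den P l * den Q l ≤ 4 * (8 * (l / m : ℝ)) ^ (2 * t) := by
  have h1 : (1 : ℝ) ≤ l := by exact_mod_cast hl
  have h2 : (8 * l : ℝ) ≤ m := by exact_mod_cast e
  have h3 : (0 : ℝ) < m := by linarith
  have h4 : (0 : ℝ) ≤ l / m := by positivity
  have h5 : (l / m : ℝ) ≤ 1 / 8 := by rw [div_le_iff₀ h3]; linarith
  have h6 : (4 * l : ℝ) ≤ 4 * (l / m) * m := by rw [mul_assoc, div_mul_cancel₀ _ h3.ne']
  generalize (l / m : ℝ) = x at h4 h5 h6
  have a1 := den_le_mu hP (p := 4 * x) (by linarith) (by linarith) hl h6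
  have a2 := den_le_mu hQ (p := 4 * x) (by linarith) (by linarith) hl h6
  have a3 := mu_cross (p := 4 * x) (by linarith) (by linarith) univ P Q t hP hQ
    fun X Y _ _ => h X Y
  have a4 : (4 * x / (1 - 4 * x)) ^ (2 * t) ≤ (8 * x) ^ (2 * t) :=
    pow_le_pow_left₀ (div_nonneg (by linarith) (by linarith))
      (by rw [div_le_iff₀ (by linarith)]; nlinarith) _
  have a5 := mul_le_mul a1 a2 (den_nonneg _ _) ((den_nonneg _ _).trans a1)
  linarith

/-- a point lies in a random set negatively correlated with an increasing event that does not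
depend on it -/
theorem neg_corr (h : Up P) (z : Fin m) (hz : ∀ Y, P Y → P (Y.erase z)) {X : Finset ℕ}
    (hX : X ⊆ range m) : m * cnt (fun Y => z ∈ Y ∧ P Y) X ≤ X.card * cnt P X := by
  classical
  obtain ⟨u, hu⟩ : ∃ u : Fin m → ℝ, ∀ a, u a = ∑ σ : Equiv.Perm (Fin m),
      if σ z = a ∧ P (pull σ X) then 1 else 0 := ⟨_, fun _ => rfl⟩
  have a1 : ∀ a b : Fin m, a.val ∈ X → u a ≤ u b := fun a b ha => by
    rw [hu, hu, ← Equiv.sum_comp (Equiv.mulLeft (Equiv.swap a b))
      fun σ => if σ z = b ∧ P (pull σ X) then (1 : ℝ) else 0]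
    refine sum_le_sum fun σ _ => ite_le fun ⟨c1, c2⟩ => ⟨by simp [c1], h _ _ ?_ (hz _ c2)⟩
    intro y hy
    rw [mem_erase] at hy
    have b1 := (mem_filter.1 hy.2).2
    have b2 : σ y ≠ a := fun e => hy.1 (σ.injective (e.trans c1.symm))
    refine mem_filter.2 ⟨mem_univ _, ?_⟩
    rw [Equiv.coe_mulLeft, Equiv.Perm.mul_apply, Equiv.swap_apply_def, if_neg b2]
    split_ifs
    · exact ha
    · exact b1
  have a2 : cnt P X = ∑ b, u b := by
    simp only [hu]
    rw [sum_comm]
    refine sum_congr rfl fun σ _ => ?_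
    by_cases c : P (pull σ X) <;> simp [c]
  have a3 : cnt (fun Y => z ∈ Y ∧ P Y) X = ∑ a ∈ pull 1 X, u a := by
    simp only [hu]
    rw [sum_comm]
    refine sum_congr rfl fun σ _ => ?_
    by_cases c : P (pull σ X)
    · simp only [c, and_true]
      simp [pull]
    · simp [c]
  rw [a2, a3, mul_sum, ← card_pull 1 hX, ← nsmul_eq_mul]
  refine sum_le_card_nsmul _ _ _ fun a ha => ?_
  simpa using card_nsmul_le_sum univ u (u a) fun b _ => a1 a b (mem_filter.1 ha).2

end Pool.Agent.P.MP_a66f6f_co.Ped
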