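import Pool.Agent.P.MP_a66f6f_co.Ped.Dens

/-!
On a low level, the members of an intersecting family that stay members after the removal of any
point are rare compared with the deficit of the family with respect to a star.
-/

namespace Pool.Agent.P.MP_a66f6f_co.Ped

open Finset

variable {m : ℕ} {g : Finset (Fin m) → Prop}

/-- membership survives the removal of any point -/
def Rob (g : Finset (Fin m) → Prop) (Y : Finset (Fin m)) : Prop := ∀ z, g (Y.erase z)

/-- membership survives the removal of any `s` points -/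
def Rb (g : Finset (Fin m) → Prop) (s : ℕ) (Y : Finset (Fin m)) : Prop :=
  ∀ Z : Finset (Fin m), Z.card ≤ s → g (Y \ Z)

/-- members with exactly one indispensable point, which lies in `S` -/
def Uq (g : Finset (Fin m) → Prop) (S Y : Finset (Fin m)) : Prop :=
  g Y ∧ ∃ z ∈ S, ¬ g (Y.erase z) ∧ ∀ w, ¬ g (Y.erase w) → w = z

open Classical in
theorem den_or {P Q R : Finset (Fin m) → Prop} (h : ∀ Y, P Y → Q Y ∨ R Y) (j : ℕ) :
    den P j ≤ den Q j + den R j := by
  rw [den, den, den, ← add_div, cnt, cnt, cnt, ← sum_add_distrib]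
  refine div_le_div_of_nonneg_right (sum_le_sum fun σ _ => ?_) (fac_pos m).le
  by_cases c : P (pull σ (range j))
  · rcases h _ c with d | d
    · rw [if_pos c, if_pos d]; exact le_add_of_nonneg_right ite_nn
    · rw [if_pos c, if_pos d]; exact le_add_of_nonneg_left ite_nn
  · rw [if_neg c]; exact add_nonneg ite_nn ite_nn

theorem halving (h : Up g) {j : ℕ} (hj : 2 ≤ j) :
    4 * den g j ≤ 4 * den (Rob g) (2 * j) + den (Uq g univ) (2 * j) + den g (2 * j) ∨
      m < 2 * j := by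
  classical
  refine or_iff_not_imp_right.2 fun hm => ?_
  obtain ⟨i, rfl⟩ := Nat.exists_eq_add_of_le' hj
  have i1 := Nat.add_one_mul_choose_eq (2 * i + 3) (i + 1)
  have i2 := Nat.add_one_mul_choose_eq (2 * i + 2) i
  obtain ⟨N, hN⟩ : ∃ N, N = (2 * (i + 2)).choose (i + 2) := ⟨_, rfl⟩
  have i3 : 2 * (2 * i + 3).choose (i + 1) = N := by
    have : (i + 2) * (2 * (2 * i + 3).choose (i + 1)) = (i + 2) * N := by
      rw [hN, show 2 * (i + 2) = 2 * i + 3 + 1 by ring, mul_comm (i + 2) (Nat.choose _ _), ← i1]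
      ring
    exact Nat.eq_of_mul_eq_mul_left (by omega) this
  have i4 : 4 * (2 * i + 2).choose i ≤ N := by
    have : (i + 1) * (2 * (2 * i + 2).choose i) ≤ (i + 1) * (2 * i + 3).choose (i + 1) := by
      rw [mul_comm (i + 1) (Nat.choose _ _), ← i2]
      nlinarith [Nat.zero_le ((2 * i + 2).choose i)]
    have := Nat.le_of_mul_le_mul_left this (by omega)
    omega
  have i5 : (0 : ℝ) < N := Nat.cast_pos.2 (hN ▸ Nat.choose_pos (by omega))
  have a1 : ∀ σ : Equiv.Perm (Fin m),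
      4 * ∑ Y ∈ powersetCard (i + 2) (range (2 * (i + 2))), (if g (pull σ Y) then 1 else 0 : ℝ) ≤
        N * (4 * (if Rob g (pull σ (range (2 * (i + 2)))) then 1 else 0) +
          (if Uq g univ (pull σ (range (2 * (i + 2)))) then 1 else 0) +
          if g (pull σ (range (2 * (i + 2)))) then 1 else 0) := fun σ => by
    obtain ⟨A, hA⟩ : ∃ A, A = (powersetCard (i + 2) (range (2 * (i + 2)))).filter
      fun Y => g (pull σ Y) := ⟨_, rfl⟩
    rw [sum_boole, ← hA]
    have b0 : ∀ Y ∈ A, Y ∈ powersetCard (i + 2) (range (2 * (i + 2))) ∧ g (pull σ Y) :=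
      fun Y hY => mem_filter.1 (hA ▸ hY)
    obtain ⟨U, hU⟩ : ∃ U, U = pull σ (range (2 * (i + 2))) := ⟨_, rfl⟩
    have b1 : ∀ Y ∈ A, pull σ Y ⊆ U := fun Y hY =>
      hU ▸ pull_mono σ (mem_powersetCard.1 (b0 Y hY).1).1
    have b2 : ∀ z, ¬ g (U.erase z) → ∀ Y ∈ A, (σ z).val ∈ Y := fun z hz Y hY => by
      by_contra c
      exact hz (h _ _ (subset_erase.2 ⟨b1 Y hY, fun d => c (mem_filter.1 d).2⟩) (b0 Y hY).2)
    have b3 : g U → ∀ z, ¬ g (U.erase z) → (σ z).val ∈ range (2 * (i + 2)) := fun c z hz => by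
      by_contra d
      have e : z ∉ U := fun e => d (by rw [hU] at e; exact (mem_filter.1 e).2)
      rw [erase_eq_of_notMem e] at hz
      exact hz c
    rw [← hU]
    by_cases c1 : g U
    swap
    · have : A = ∅ := eq_empty_of_forall_notMem fun Y hY => c1 (h _ _ (b1 Y hY) (b0 Y hY).2)
      rw [this, card_empty, Nat.cast_zero, mul_zero]
      exact mul_nonneg i5.le (add_nonneg (add_nonneg (mul_nonneg (by norm_num) ite_nn) ite_nn)
        ite_nn)
    rw [if_pos c1]
    by_cases c2 : Rob g U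
    · have : A.card ≤ N := by
        rw [hN, hA]
        exact (card_filter_le _ _).trans (by simp)
      have d1 : (A.card : ℝ) ≤ N := by exact_mod_cast this
      have d2 : (0 : ℝ) ≤ if Uq g univ U then 1 else 0 := ite_nn
      rw [if_pos c2]
      nlinarith
    rw [if_neg c2]
    obtain ⟨z, hz⟩ := not_forall.1 c2
    by_cases c3 : Uq g univ U
    · have d1 := card_filter_powersetCard_subset {(σ z).val} (range (2 * (i + 2))) (i + 2)
        (singleton_subset_iff.2 (b3 c1 z hz)) (by simp)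
      have d2 : A.card ≤ (2 * i + 3).choose (i + 1) := by
        refine (card_le_card fun Y hY => mem_filter.2
          ⟨(b0 Y hY).1, singleton_subset_iff.2 (b2 z hz Y hY)⟩).trans (d1.trans ?_).le
        rw [card_range, card_singleton]
        rfl
      have d3 : (2 * A.card : ℝ) ≤ N := by exact_mod_cast (by omega : 2 * A.card ≤ N)
      rw [if_pos c3]
      linarith
    · obtain ⟨w, hw, hwz⟩ : ∃ w, ¬ g (U.erase w) ∧ w ≠ z := by
        by_contra d
        exact c3 ⟨c1, z, mem_univ _, hz, fun w hw => by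
          by_contra e
          exact d ⟨w, hw, e⟩⟩
      have d0 : ({(σ w).val, (σ z).val} : Finset ℕ).card = 2 :=
        card_pair fun e => hwz (σ.injective (Fin.ext e))
      have d1 := card_filter_powersetCard_subset {(σ w).val, (σ z).val} (range (2 * (i + 2))) (i + 2)
        (insert_subset (b3 c1 w hw) (singleton_subset_iff.2 (b3 c1 z hz))) (by omega)
      have d2 : A.card ≤ (2 * i + 2).choose i := by
        refine (card_le_card fun Y hY => mem_filter.2 ⟨(b0 Y hY).1, insert_subset (b2 w hw Y hY)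
          (singleton_subset_iff.2 (b2 z hz Y hY))⟩).trans (d1.trans ?_).le
        rw [card_range, d0]
        rfl
      have d3 : (4 * A.card : ℝ) ≤ N := by exact_mod_cast (by omega : 4 * A.card ≤ N)
      rw [if_neg c3]
      linarith
  have a2 := sum_le_sum fun σ (_ : σ ∈ univ) => a1 σ
  rw [← mul_sum, ← mul_sum, sum_comm, sum_add_distrib, sum_add_distrib, ← mul_sum] at a2
  have a3 : ∑ Y ∈ powersetCard (i + 2) (range (2 * (i + 2))), cnt g Y =
      N * (fac m * den g (i + 2)) := by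
    rw [sum_congr rfl (g := fun _ => fac m * den g (i + 2)) fun Y hY => by
      rw [cnt_eq g ((mem_powersetCard.1 hY).1.trans (range_subset_range.2 (by omega))),
        (mem_powersetCard.1 hY).2]]
    simp [hN]
  have a4 : 4 * ∑ Y ∈ powersetCard (i + 2) (range (2 * (i + 2))), cnt g Y ≤
      N * (4 * cnt (Rob g) (range (2 * (i + 2))) + cnt (Uq g univ) (range (2 * (i + 2))) +
        cnt g (range (2 * (i + 2)))) := by
    unfold cnt
    convert a2
  rw [a3, cnt_range, cnt_range, cnt_range] at a4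
  refine le_of_mul_le_mul_left (a := N * fac m) ?_ (mul_pos i5 (fac_pos m))
  linarith

theorem rob_up (h : Up g) : Up (Rob g) := fun _ _ e c z => h _ _ (erase_subset_erase z e) (c z)

theorem den_rob (h : Up g) (hi : ∀ X Y, g X → g Y → ¬ Disjoint X Y) {l : ℕ} (hl : 1 ≤ l)
    (e : 8 * l ≤ m) : den (Rob g) l ≤ 1024 * (l / m : ℝ) ^ 3 := by
  have a1 := den_cross (rob_up h) (rob_up h) 3 (fun X Y c1 c2 => by
    obtain ⟨a, a1, a2⟩ := not_disjoint_iff.1 (hi _ _ (c1 ⟨0, by omega⟩) (c2 ⟨0, by omega⟩))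
    obtain ⟨b, b1, b2⟩ := not_disjoint_iff.1 (hi _ _ (c1 a) (c2 a))
    obtain ⟨c, d1, d2⟩ := not_disjoint_iff.1 (hi _ _ (c1 a) (c2 b))
    rw [mem_erase] at a1 a2 b1 b2 d1 d2
    exact two_lt_card_iff.2 ⟨a, b, c, mem_inter.2 ⟨a1.2, a2.2⟩, mem_inter.2 ⟨b1.2, b2.2⟩,
      mem_inter.2 ⟨d1.2, d2.2⟩, b1.1.symm, d1.1.symm, d2.1.symm⟩) hl e
  refine abs_le_of_sq_le_sq' (a := den (Rob g) l) ?_ (by positivity) |>.2
  calc _ = den (Rob g) l * den (Rob g) l := sq _
    _ ≤ _ := a1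
    _ = _ := by ring

theorem den_uq (hi : ∀ X Y, g X → g Y → ¬ Disjoint X Y) {l : ℕ} (hl : 1 ≤ l) (e : 8 * l ≤ m)
    (S : Finset (Fin m)) :
    den (Uq g S) l * den (Uq g Sᶜ) l ≤ 4 * (8 * (l / m : ℝ)) ^ 4 := by
  have u : ∀ S, Up fun Y => ∃ Y', Y' ⊆ Y ∧ Uq g S Y' :=
    fun S X Y d ⟨Z, c1, c2⟩ => ⟨Z, c1.trans d, c2⟩
  refine le_trans (mul_le_mul (den_le (fun Y c => ⟨Y, Subset.rfl, c⟩) l)
    (den_le (fun Y c => ⟨Y, Subset.rfl, c⟩) l) (den_nonneg _ _) (den_nonneg _ _))
    (den_cross (u S) (u Sᶜ) 2 ?_ hl e)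
  rintro X Y ⟨X', x1, x2, z, z1, -, z2⟩ ⟨Y', y1, y2, w, w1, -, w2⟩
  obtain ⟨a, a1, a2⟩ := not_disjoint_iff.1 (hi _ _ x2 y2)
  by_cases c : g (X'.erase a)
  · obtain ⟨b, b1, b2⟩ := not_disjoint_iff.1 (hi _ _ c y2)
    rw [mem_erase] at b1
    exact one_lt_card.2 ⟨a, mem_inter.2 ⟨x1 a1, y1 a2⟩, b, mem_inter.2 ⟨x1 b1.2, y1 b2⟩, b1.1.symm⟩
  by_cases d : g (Y'.erase a)
  · obtain ⟨b, b1, b2⟩ := not_disjoint_iff.1 (hi _ _ x2 d)
    rw [mem_erase] at b2
    exact one_lt_card.2 ⟨a, mem_inter.2 ⟨x1 a1, y1 a2⟩, b, mem_inter.2 ⟨x1 b1, y1 b2.2⟩, b2.1.symm⟩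
  exact absurd (z2 a c ▸ z1) (mem_compl.1 (w2 a d ▸ w1))

theorem centre (hi : ∀ X Y, g X → g Y → ¬ Disjoint X Y) {l : ℕ} (hl : 1 ≤ l) (e : 8 * l ≤ m)
    {η : ℝ} (h0 : 0 ≤ η) (h1 : 4 * (8 * (l / m : ℝ)) ^ 4 ≤ η ^ 2) (h2 : η < den (Uq g univ) l) :
    ∃ z, den (Uq g univ) l ≤ 2 * η + den (Uq g {z}) l := by
  classical
  obtain ⟨S, S1, S2⟩ := exists_min_image (univ.filter fun S => η < den (Uq g S) l) card
    ⟨univ, mem_filter.2 ⟨mem_univ _, h2⟩⟩
  have a1 := (mem_filter.1 S1).2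
  obtain ⟨z, hz⟩ : S.Nonempty := by
    by_contra c
    rw [not_nonempty_iff_eq_empty.1 c] at a1
    have : den (Uq g ∅) l = 0 := by simp [den, cnt, Uq]
    linarith
  have a2 : den (Uq g (S.erase z)) l ≤ η := by
    by_contra c
    have := S2 _ (mem_filter.2 ⟨mem_univ _, not_le.1 c⟩)
    have := card_erase_lt_of_mem hz
    omega
  have a3 : den (Uq g Sᶜ) l ≤ η := by
    by_contra c
    have := den_uq hi hl e S
    nlinarith [mul_lt_mul'' a1 (not_le.1 c) h0 h0]
  have a4 := den_or (P := Uq g univ) (Q := Uq g S) (R := Uq g Sᶜ) (fun Y ⟨c1, w, _, c2⟩ => by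
    by_cases d : w ∈ S
    · exact .inl ⟨c1, w, d, c2⟩
    · exact .inr ⟨c1, w, mem_compl.2 d, c2⟩) l
  have a5 := den_or (P := Uq g S) (Q := Uq g (S.erase z)) (R := Uq g {z})
    (fun Y ⟨c1, w, c0, c2⟩ => by
      by_cases d : w = z
      · exact .inr ⟨c1, w, mem_singleton.2 d, c2⟩
      · exact .inl ⟨c1, w, mem_erase.2 ⟨d, c0⟩, c2⟩) l
  exact ⟨z, by linarith⟩

theorem deficit (h : Up g) (hi : ∀ X Y, g X → g Y → ¬ Disjoint X Y) (z : Fin m) {j : ℕ}
    (e : j ≤ m) : den g j ≤ j / m - j / m * den (fun Y => g (Y.erase z)) (m - j) +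
      den (fun Y => g (Y.erase z)) j := by
  classical
  have hm : (0 : ℝ) < m := Nat.cast_pos.2 z.pos
  have u : Up fun Y => g (Y.erase z) := fun X Y d => h _ _ (erase_subset_erase z d)
  have s1 : Ico j m ⊆ range m := fun x hx => mem_range.2 (mem_Ico.1 hx).2
  have a1 := neg_corr u z (fun Y c => by rwa [erase_idem]) s1
  have a2 := neg_corr (P := fun _ => True) (fun _ _ _ _ => trivial) z (fun _ _ => trivial)
    (range_subset_range.2 e)
  have a3 : cnt (fun _ : Finset (Fin m) => True) (range j) = fac m := by simp [cnt, fac]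
  have a4 : cnt g (range j) + cnt (fun Y => g (Y.erase z)) (Ico j m) ≤
      cnt (fun Y => z ∈ Y ∧ True) (range j) + cnt (fun Y => z ∈ Y ∧ g (Y.erase z)) (Ico j m) +
        cnt (fun Y => g (Y.erase z)) (range j) := by
    simp only [cnt, ← sum_add_distrib]
    refine sum_le_sum fun σ _ => ?_
    by_cases c : z ∈ pull σ (range j)
    · have b1 : ¬ (g (pull σ (range j)) ∧ g ((pull σ (Ico j m)).erase z)) := fun d =>
        hi _ _ d.1 d.2 ((pull_disj σ (disjoint_left.2 fun x c1 c2 => by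
          simp only [mem_Ico, mem_range] at c1 c2; omega)).mono_right (erase_subset _ _))
      have b2 : (if g (pull σ (range j)) then 1 else 0 : ℝ) +
          (if g ((pull σ (Ico j m)).erase z) then 1 else 0) ≤ 1 := by
        split_ifs with d1 d2
        · exact absurd ⟨d1, d2⟩ b1
        all_goals norm_num
      simp only [c, and_self, if_true, add_assoc]
      refine le_trans ?_ (le_add_of_nonneg_right (add_nonneg ?_ ?_))
      · convert b2
      all_goals split_ifs <;> norm_num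
    · have b1 : z ∈ pull σ (Ico j m) := by
        have := (σ z).2
        simp only [pull, mem_filter, mem_univ, true_and, mem_range, mem_Ico] at c ⊢
        omega
      have b2 := erase_eq_of_notMem c
      simp only [b1, b2, c, true_and, false_and, if_false]
      linarith
  rw [a3, card_range] at a2
  rw [cnt_eq _ s1, cnt_range g, cnt_range fun Y => g (Y.erase z)] at a4
  rw [cnt_eq (fun Y => g (Y.erase z)) s1] at a1
  rw [Nat.card_Ico] at a1 a4
  rw [Nat.cast_sub e] at a1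
  have a5 := mul_le_mul_of_nonneg_left a4 hm.le
  have a6 : (m : ℝ) * (j / m) = j := mul_div_cancel₀ _ hm.ne'
  refine le_of_mul_le_mul_left (a := m * fac m) ?_ (mul_pos hm (fac_pos m))
  generalize (j / m : ℝ) = x at a6 ⊢
  rw [← a6] at a1 a2
  linarith

theorem rb_up (h : Up g) (s : ℕ) : Up (Rb g s) :=
  fun _ _ e c Z hZ => h _ _ (sdiff_subset_sdiff e Subset.rfl) (c Z hZ)

theorem den_rb (h : Up g) (hi : ∀ X Y, g X → g Y → ¬ Disjoint X Y) (s : ℕ) {l : ℕ} (hl : 1 ≤ l)
    (e : 8 * l ≤ m) : den (Rb g s) l ≤ 2 * (8 * (l / m : ℝ)) ^ (2 * s + 1) := by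
  have a1 := den_cross (rb_up h s) (rb_up h s) (2 * s + 1) (fun X Y c1 c2 => by
    by_contra c
    obtain ⟨Z, z1, z2⟩ := exists_subset_card_eq (min_le_right s (X ∩ Y).card)
    refine hi _ _ (c1 Z (by omega)) (c2 ((X ∩ Y) \ Z) (by rw [card_sdiff_of_subset z1]; omega))
      (disjoint_left.2 fun x d1 d2 => ?_)
    simp only [mem_sdiff, mem_inter] at d1 d2
    tauto) hl e
  refine abs_le_of_sq_le_sq' (a := den (Rb g s) l) ?_ (by positivity) |>.2
  calc _ = den (Rb g s) l * den (Rb g s) l := sq _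
    _ ≤ _ := a1
    _ = _ := by ring

theorem den_pow (h : Up g) {j : ℕ} (p : ℕ) (e : (p + 1) * j ≤ m) :
    den g (m - (p + 1) * j) ≤ den g (m - j) ^ (p + 1) := by
  induction p with
  | zero => simp
  | succ p ih =>
    have a1 : (p + 1 + 1) * j = (p + 1) * j + j := by ring
    rw [pow_succ]
    exact (den_mul h (i := m - (p + 1) * j) (j := m - j) (by omega) (by omega) (by omega)).trans
      (mul_le_mul_of_nonneg_right (ih (by omega)) (den_nonneg _ _))

theorem hold {w x B : ℝ} (s : ℕ) (h0 : 0 ≤ w) (hx : 0 ≤ x) (hB : 0 ≤ B) (x1 : x ≤ 1 / 2 ^ 13)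
    (h1 : w ≤ B ^ 64) (h2 : w ≤ 5 * (256 * x ^ 2) ^ (s + 1)) :
    w ≤ 19 / 100 * (1 / 20) ^ s * (x * B) := by
  refine le_of_pow_le_pow_left₀ (n := 64) (by norm_num) (by positivity) ?_
  have a1 : (256 * x ^ 2) ^ 63 ≤ (1 / 20) ^ 64 :=
    calc _ ≤ (256 * (1 / 2 ^ 13 : ℝ) ^ 2) ^ 63 := by gcongr
      _ ≤ _ := by norm_num
  have a2 : 1280 ^ 63 * x ^ 62 ≤ (19 / 100) ^ 64 :=
    calc _ ≤ 1280 ^ 63 * (1 / 2 ^ 13 : ℝ) ^ 62 := by gcongr
      _ ≤ _ := by norm_num
  calc w ^ 64 = w ^ 63 * w := pow_succ _ _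
    _ ≤ (5 * (256 * x ^ 2) ^ (s + 1)) ^ 63 * B ^ 64 :=
      mul_le_mul (pow_le_pow_left₀ h0 h2 _) h1 h0 (pow_nonneg (h0.trans h2) _)
    _ = (1280 ^ 63 * x ^ 62) * ((256 * x ^ 2) ^ 63) ^ s * (x * B) ^ 64 := by
      rw [pow_succ _ s, ← pow_mul, mul_comm 63 s, pow_mul]
      generalize (256 * x ^ 2) ^ s = y
      ring
    _ ≤ (19 / 100) ^ 64 * ((1 / 20) ^ 64) ^ s * (x * B) ^ 64 :=
      have a3 : (0 : ℝ) ≤ (256 * x ^ 2) ^ 63 := pow_nonneg (by positivity) _
      mul_le_mul_of_nonneg_right (mul_le_mul a2 (pow_le_pow_left₀ a3 a1 _) (pow_nonneg a3 _)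
        (pow_nonneg (by norm_num) _)) (pow_nonneg (mul_nonneg hx hB) _)
    _ = _ := by
      rw [← pow_mul, mul_comm 64 s, pow_mul, mul_pow _ (x * B), mul_pow (19 / 100 : ℝ)]

/-- the main estimate -/
theorem rob_le (h : Up g) (hi : ∀ X Y, g X → g Y → ¬ Disjoint X Y) {j : ℕ} (hj : 2 ≤ j)
    (e : 2 ^ 13 * j ≤ m) (s : ℕ) :
    den (Rb g (s + 1)) j ≤ 19 / 80 * (1 / 20) ^ s * (j / m - den g j) := by
  have h1 : (2 : ℝ) ≤ j := by exact_mod_cast hj
  have h2 : (2 ^ 13 * j : ℝ) ≤ m := by exact_mod_cast e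
  have hm : (0 : ℝ) < m := by linarith
  have x0 : (0 : ℝ) < j / m := by positivity
  have x1 : (j / m : ℝ) ≤ 1 / 2 ^ 13 := by rw [div_le_iff₀ hm]; linarith
  have x2 : ((2 * j : ℕ) / m : ℝ) = 2 * (j / m) := by push_cast; ring
  have x3 : (m : ℝ) * (j / m) = j := mul_div_cancel₀ _ hm.ne'
  have r1 := den_rb h hi (s + 1) (l := j) (by omega) (by omega)
  have r2 := den_rob h hi (l := 2 * j) (by omega) (by omega)
  have r3 := (halving h hj).resolve_right (by omega)
  have r4 := den_part hi (Nat.div_mul_le_self m (2 * j))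
  have r5 : (m : ℝ) < 2 * j * ((m / (2 * j) : ℕ) + 1) := by
    exact_mod_cast Nat.lt_mul_div_succ m (show 0 < 2 * j by omega)
  have r6 := fun η h0 h1 h2 => centre hi (l := 2 * j) (η := η) (by omega) (by omega) h0 h1 h2
  have r7 : ∀ z, den (Uq g {z}) (2 * j) ≤ 2 * (j / m) * den (fun Y => g (insert z Y)) (2 * j) := by
    intro z
    have b1 := neg_corr (P := fun Y => g (insert z Y))
      (fun X Y d => h _ _ (insert_subset_insert z d)) z
      (fun Y c => h _ _ (fun x hx => by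
          simp only [mem_insert, mem_erase] at hx ⊢
          tauto) c) (range_subset_range.2 (show 2 * j ≤ m by omega))
    have b2 := den_le (P := Uq g {z}) (Q := fun Y => z ∈ Y ∧ g (insert z Y))
      (fun Y ⟨c1, w, c2, c3, _⟩ => ⟨by
        by_contra d
        rw [mem_singleton.1 c2, erase_eq_of_notMem d] at c3
        exact c3 c1, h _ _ (subset_insert _ _) c1⟩) (2 * j)
    rw [cnt_range, cnt_range, card_range] at b1
    refine b2.trans (le_of_mul_le_mul_left (a := m * fac m) ?_ (mul_pos hm (fac_pos m)))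
    push_cast at b1
    generalize (j / m : ℝ) = x at x3 ⊢
    rw [← x3] at b1
    linarith
  have u : ∀ z, Up fun Y => g (Y.erase z) := fun z X Y d => h _ _ (erase_subset_erase z d)
  have r8 := fun z t => den_cross (P := fun Y => g (insert z Y))
    (Q := Rb (fun Y => g (Y.erase z)) t)
    (fun X Y d => h _ _ (insert_subset_insert z d)) (rb_up (u z) t) (t + 1)
    (fun X Y c1 c2 => by
      by_contra c
      refine hi _ _ c1 (c2 (X ∩ Y) (by omega)) (disjoint_left.2 fun x d1 d2 => ?_)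
      simp only [mem_insert, mem_erase, mem_sdiff, mem_inter] at d1 d2
      tauto)
    (l := 2 * j) (by omega) (by omega)
  have r9 := fun z => deficit h hi z (j := j) (by omega)
  rw [x2] at r2 r6 r8
  have r0 := den_nonneg g (2 * j)
  have r10 : (1 - 2 * (j / m)) * den g (2 * j) ≤ 2 * (j / m) := by
    refine le_of_mul_le_mul_left ?_ hm
    generalize (j / m : ℝ) = x at x3 ⊢
    have := mul_le_mul_of_nonneg_left r4 (show (0 : ℝ) ≤ 2 * j by linarith)
    have := mul_le_mul_of_nonneg_right r5.le r0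
    calc (m : ℝ) * ((1 - 2 * x) * den g (2 * j)) = (m - 2 * (m * x)) * den g (2 * j) := by ring
      _ ≤ 2 * (m * x) := by rw [x3]; linarith
      _ = _ := by ring
  clear r4 r5 x2 x3
  generalize (j / m : ℝ) = x at *
  have y0 := mul_le_mul x1 x1 x0.le (by norm_num)
  have y2 : x ^ 3 ≤ 1 / 2 ^ 26 * x := by nlinarith
  have y3 : x ^ 4 ≤ 1 / 2 ^ 26 * x ^ 2 := by nlinarith
  have y4 : (0 : ℝ) ≤ (1 / 20) ^ s := by positivity
  rcases le_or_gt (den g j) (15 / 16 * x) with c | c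
  · have b1 : ((8 * x) ^ 2) ^ s ≤ (1 / 20) ^ s := pow_le_pow_left₀ (by positivity) (by nlinarith) s
    rw [show (8 * x) ^ (2 * (s + 1) + 1) = ((8 * x) ^ 2) ^ s * (512 * x ^ 3) by
      rw [← pow_mul]; ring] at r1
    have b2 := mul_le_mul_of_nonneg_right b1 (show 0 ≤ 512 * x ^ 3 by positivity)
    have b3 := mul_le_mul_of_nonneg_left
      (show 2 * (512 * x ^ 3) ≤ 19 / 80 * (x - den g j) by linarith) y4
    linarith
  have s1 : den g (2 * j) ≤ 2001 / 1000 * x := by nlinarith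
  obtain ⟨z, s2⟩ := r6 (x / 16) (by linarith) (by nlinarith) (by linarith)
  have s3 : 4 / 5 ≤ den (fun Y => g (insert z Y)) (2 * j) := by
    refine le_of_mul_le_mul_left (a := 2 * x) ?_ (by linarith)
    linarith [r7 z]
  have s4 : ∀ t, den (Rb (fun Y => g (Y.erase z)) t) j ≤ 5 * (256 * x ^ 2) ^ (t + 1) := fun t => by
    have := mul_le_mul_of_nonneg_right s3 (den_nonneg (Rb (fun Y => g (Y.erase z)) t) (2 * j))
    have b1 := r8 z t
    rw [pow_mul, show (8 * (2 * x)) ^ 2 = 256 * x ^ 2 by ring] at b1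
    linarith [den_mono (rb_up (u z) t) (show j ≤ 2 * j by omega)]
  have s5 := (den_mono (u z) (show j ≤ m - (63 + 1) * j by omega)).trans
    (den_pow (u z) 63 (by omega))
  have s6 := den_le (P := Rb g (s + 1)) (Q := Rb (fun Y => g (Y.erase z)) s) (fun Y c Z hZ => by
    have := c (insert z Z) ((card_insert_le _ _).trans (by omega))
    rwa [sdiff_insert] at this) j
  have s7 := den_le (P := Rb (fun Y => g (Y.erase z)) s) (Q := fun Y => g (Y.erase z))
    (fun Y c => by simpa using c ∅ (by simp)) j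
  have s8 := den_le (P := fun Y => g (Y.erase z)) (Q := Rb (fun Y => g (Y.erase z)) 0)
    (fun Y c Z hZ => by rwa [card_eq_zero.1 (Nat.le_zero.1 hZ), sdiff_empty]) j
  have t1 := den_nonneg (fun Y => g (Y.erase z)) (m - j)
  have t2 := hold s (den_nonneg _ _) x0.le t1 x1 (s6.trans (s7.trans s5)) (s6.trans (s4 s))
  have t3 := hold 0 (den_nonneg _ _) x0.le t1 x1 s5 (s8.trans (s4 0))
  have t4 := mul_le_mul_of_nonneg_left (show 19 / 100 *
    (x * den (fun Y => g (Y.erase z)) (m - j)) ≤ 19 / 80 * (x - den g j) by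
      linarith [r9 z, mul_nonneg x0.le t1]) y4
  linarith

theorem rob_sum (h : Up g) (hi : ∀ X Y, g X → g Y → ¬ Disjoint X Y) {j : ℕ} (hj : 2 ≤ j)
    (e : 2 ^ 13 * j ≤ m) (L : ℕ) :
    4 * ∑ s ∈ range L, den (Rb g (s + 1)) j ≤ j / m - den g j := by
  have a1 := sum_le_sum fun s (_ : s ∈ range L) => rob_le h hi hj e s
  have a2 : ∑ s ∈ range L, ((1 : ℝ) / 20) ^ s ≤ 20 / 19 := by
    rw [geom_sum_eq (by norm_num), div_le_iff_of_neg (by norm_num)]
    have : (0 : ℝ) ≤ (1 / 20) ^ L := by positivity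
    linarith
  have a3 := (den_nonneg _ _).trans (rob_le h hi hj e 0)
  rw [← sum_mul, ← mul_sum] at a1
  nlinarith

end Pool.Agent.P.MP_a66f6f_co.Ped
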