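import Pool.Agent.P.MP_a66f6f_co.Ped.Core
import Pool.Agent.P.MP_a66f6f_co.Ped.Rob
import Pool.Agent.P.MP_a66f6f_co.Defs

/-!
The deficiency on low levels, and the lower bound with a linear error term.
-/

namespace Pool.Agent.P.MP_a66f6f_co.Ped

open Finset

variable {β : Type*} [DecidableEq β] {m n k : ℕ} (q : ℕ) {C : Finset (Fin m) → Finset β}

open Classical in
theorem point (h : Sys C univ n k) (hr : (q * n - k : ℤ) < n) {K : Finset β} (hK : ∀ X, C X ⊆ K)
    {X : Finset (Fin m)} (hX : n ≤ X.card) :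
    (q * X.card - (q * n - k) : ℝ) ≤
      ∑ c ∈ K, ∑ s ∈ range (m + 1), if Rb (fun Y => c ∈ C Y) s X then 1 else 0 := by
  have a1 : ∀ c, ∃ A : Finset (Fin m), c ∉ C (X \ A) ∧
      (A.card : ℝ) ≤ ∑ s ∈ range (m + 1), if Rb (fun Y => c ∈ C Y) s X then 1 else 0 := fun c => by
    obtain ⟨A, A1, A2⟩ := exists_min_image (univ.filter fun A => c ∉ C (X \ A)) card
      ⟨X, mem_filter.2 ⟨mem_univ _, fun d =>
        disjoint_left.1 (h.disj _ _ (by simp)) d d⟩⟩
    refine ⟨A, (mem_filter.1 A1).2, ?_⟩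
    rw [sum_boole, Nat.cast_le, ← card_range A.card]
    refine card_le_card fun s hs => mem_filter.2 ⟨?_, fun Z hZ => ?_⟩
    · have := card_le_univ A
      rw [Fintype.card_fin] at this
      rw [mem_range] at hs ⊢
      omega
    · by_contra d
      have := A2 Z (mem_filter.2 ⟨mem_univ _, d⟩)
      rw [mem_range] at hs
      omega
  choose A A1 A2 using a1
  obtain ⟨t, ht⟩ : ∃ t : Fin m → ℕ, ∀ i, t i = (K.filter fun c => i ∈ A c).card := ⟨_, fun _ => rfl⟩
  have a2 : ∀ S, S ⊆ X → S.card = n → k ≤ ∑ i ∈ S, t i := fun S e1 e2 => by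
    simp only [ht]
    refine (h.big S (subset_univ _) e2).trans (le_trans (card_le_card fun c hc => ?_) card_biUnion_le)
    by_contra d
    refine A1 c (h.mono _ _ (subset_sdiff.2 ⟨e1, disjoint_left.2 fun i c1 c2 => d ?_⟩) hc)
    exact mem_biUnion.2 ⟨i, c1, mem_filter.2 ⟨hK _ hc, c2⟩⟩
  have a3 : ∑ i ∈ X, t i ≤ ∑ c ∈ K, (A c).card := by
    simp only [ht, card_filter]
    rw [sum_comm]
    refine sum_le_sum fun c _ => ?_
    rw [← card_filter]
    exact card_le_card fun i hi => (mem_filter.1 hi).2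
  have a4 : q * X.card + k ≤ ∑ i ∈ X, t i + q * n := by
    rcases le_total n (X.filter fun i => t i < q).card with c | c
    · obtain ⟨S, s1, s2⟩ := exists_subset_card_eq c
      have b1 := a2 S (s1.trans (filter_subset _ _)) s2
      have b2 := sum_le_card_nsmul S (fun i => t i + 1) q fun i hi => (mem_filter.1 (s1 hi)).2
      rw [sum_add_distrib, sum_const, s2, smul_eq_mul, smul_eq_mul, mul_one, mul_comm] at b2
      have b3 : (q * n : ℤ) = (q * n : ℕ) := by push_cast; rfl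
      omega
    · obtain ⟨S, s1, s2, s3⟩ := exists_subsuperset_card_eq (filter_subset _ X) c hX
      have b1 := a2 S s2 s3
      have b2 := card_nsmul_le_sum (X \ S) (fun i => t i) q fun i hi => by
        by_contra d
        exact (mem_sdiff.1 hi).2 (s1 (mem_filter.2 ⟨(mem_sdiff.1 hi).1, not_le.1 d⟩))
      rw [← sum_sdiff s2, ← card_sdiff_add_card_eq_card s2, s3, mul_add]
      rw [smul_eq_mul, mul_comm] at b2
      omega
  have a5 : (q * X.card + k : ℝ) ≤ ∑ c ∈ K, ((A c).card : ℝ) + q * n := by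
    exact_mod_cast a4.trans (Nat.add_le_add_right a3 _)
  linarith [sum_le_sum fun c (_ : c ∈ K) => A2 c]

theorem low (h : Sys C univ n k) (hr : (q * n - k : ℤ) < n) {K : Finset β} (hK : ∀ X, C X ⊆ K)
    (hN : K.card ≤ q * m) {j : ℕ} (h1 : n ≤ j) (h2 : 2 ≤ j) (h3 : 2 ^ 13 * j ≤ m) :
    (sp q C (range j) : ℝ) ≤
      ((q * n - k : ℤ) * Fintype.card (Equiv.Perm (Fin m)) : ℤ) * (4 / 3) := by
  classical
  have e : range j ⊆ range m := range_subset_range.2 (by omega)
  have a1 : (sp q C (range j) : ℝ) = fac m * (q * j - ∑ c ∈ K, den (fun Y => c ∈ C Y) j) := by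
    simp only [mul_sub, mul_sum, ← cnt_range, cnt, sp, card_range]
    rw [sum_comm]
    push_cast
    rw [sum_sub_distrib, sum_const, card_univ, nsmul_eq_mul]
    congr 1
    refine sum_congr rfl fun σ _ => ?_
    have b0 : ∀ X, ((C X).card : ℝ) = ∑ c ∈ K, if c ∈ C X then 1 else 0 := fun X => by
      rw [sum_boole, filter_mem_eq_inter, inter_eq_right.2 (hK X)]
    rw [b0]
    exact sum_congr rfl fun c _ => by congr
  have a2 : fac m * (q * j - (q * n - k)) ≤
      fac m * ∑ c ∈ K, ∑ s ∈ range (m + 1), den (Rb (fun Y => c ∈ C Y) s) j := by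
    have b1 := sum_le_sum fun (σ : Equiv.Perm (Fin m)) (_ : σ ∈ univ) =>
      point q h hr hK (X := pull σ (range j)) (by rwa [card_pull σ e, card_range])
    simp only [card_pull _ e, card_range] at b1
    simp only [mul_sum, ← cnt_range, cnt]
    rw [sum_const, card_univ, nsmul_eq_mul, sum_comm] at b1
    simp only [sum_comm (s := (univ : Finset (Equiv.Perm (Fin m))))] at b1
    exact b1
  have a3 := le_of_mul_le_mul_left a2 (fac_pos m)
  have a4 : ∀ c ∈ K, 4 * ∑ s ∈ range (m + 1), den (Rb (fun Y => c ∈ C Y) s) j ≤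
      j / m + 3 * den (fun Y => c ∈ C Y) j := fun c _ => by
    have b1 := rob_sum (g := fun Y => c ∈ C Y) (fun X Y d hc => h.mono _ _ d hc)
      (fun X Y c1 c2 d => disjoint_left.1 (h.disj _ _ d) c1 c2) h2 h3 m
    have b2 := den_le (P := Rb (fun Y => c ∈ C Y) 0) (Q := fun Y => c ∈ C Y)
      (fun Y d => by simpa using d ∅ (by simp)) j
    rw [sum_range_succ']
    linarith
  have a5 := sum_le_sum a4
  rw [← mul_sum, sum_add_distrib, ← mul_sum, sum_const, nsmul_eq_mul] at a5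
  have a6 : (K.card : ℝ) * (j / m) ≤ q * j := by
    have b1 : (K.card : ℝ) ≤ q * m := by exact_mod_cast hN
    have b2 : (0 : ℝ) < m := Nat.cast_pos.2 (by omega)
    rw [← mul_div_assoc, div_le_iff₀ b2]
    nlinarith [mul_le_mul_of_nonneg_right b1 (Nat.cast_nonneg j)]
  rw [a1]
  push_cast
  change _ ≤ _ * fac m * _
  nlinarith [fac_pos m]

theorem sum_log (w t : ℕ) {u v : ℕ} (hu : 1 ≤ u) (h : v ≤ 2 ^ t * u) :
    ∑ j ∈ Ico (u + 1) (v + 1), (1 : ℝ) / (max j w : ℕ) ≤ t * (7 / 10) := by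
  have h0 : (0 : ℝ) < u := Nat.cast_pos.2 hu
  have a1 : ∀ v, u ≤ v → ∑ j ∈ Ico (u + 1) (v + 1), (1 : ℝ) / (max j w : ℕ) ≤
      Real.log v - Real.log u := fun v hv => by
    induction v, hv using Nat.le_induction with
    | base => simp
    | succ v hv ih =>
      have h4 : (0 : ℝ) < v := Nat.cast_pos.2 (by omega)
      have h5 : (0 : ℝ) < v + 1 := by linarith
      have h6 := Real.log_le_sub_one_of_pos (div_pos h4 h5)
      have h7 : (1 : ℝ) / (max (v + 1) w : ℕ) ≤ 1 / (v + 1) :=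
        one_div_le_one_div_of_le h5 (by exact_mod_cast le_max_left _ _)
      have h8 : (v : ℝ) / (v + 1) - 1 = -(1 / (v + 1)) := by field_simp; ring
      rw [Real.log_div h4.ne' h5.ne', h8] at h6
      rw [sum_Ico_succ_top (by omega), Nat.cast_add_one]
      linarith
  have a2 := a1 (2 ^ t * u) (Nat.le_mul_of_pos_left _ (by positivity))
  rw [Nat.cast_mul, Real.log_mul (by positivity) h0.ne', Nat.cast_pow, Real.log_pow] at a2
  refine (sum_le_sum_of_subset_of_nonneg (Ico_subset_Ico le_rfl (Nat.succ_le_succ h))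
    fun _ _ _ => by positivity).trans (a2.trans ?_)
  rw [add_sub_cancel_right]
  exact mul_le_mul_of_nonneg_left (by linarith [Real.log_two_lt_d9, Nat.cast_ofNat (R := ℝ) (n := 2)])
    (Nat.cast_nonneg t)

theorem sys_of_hom {m n N k : ℕ} (hn : 1 ≤ n) (f : kneser m n →g kneser N k) :
    ∃ C : Finset (Fin m) → Finset (Fin N), Sys C univ n k := by
  obtain ⟨φ, hφ⟩ : ∃ φ : Finset (Fin m) → Finset (Fin N), ∀ S (h : S.card = n),
      φ S = (f ⟨S, h⟩).1 :=
    ⟨fun S => if h : S.card = n then (f ⟨S, h⟩).1 else ∅, fun S h => dif_pos h⟩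
  refine ⟨fun X => (X.powersetCard n).biUnion φ, fun X Y e => ?_, fun X Y e => ?_,
    fun X _ e => ?_⟩
  · exact biUnion_subset_biUnion_of_subset_left _ (powersetCard_mono e)
  · rw [disjoint_biUnion_left]
    intro S hS
    rw [disjoint_biUnion_right]
    intro T hT
    rw [mem_powersetCard] at hS hT
    have hST := e.mono hS.1 hT.1
    have : (kneser m n).Adj ⟨S, hS.2⟩ ⟨T, hT.2⟩ := by
      refine ⟨fun he => ?_, hST⟩
      have h2 : S = T := congrArg Subtype.val he
      rw [h2, disjoint_self, bot_eq_empty] at hST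
      rw [hST, card_empty] at hT
      omega
    rw [hφ S hS.2, hφ T hT.2]
    exact (f.map_adj this).2
  · refine le_trans ?_ (card_le_card (subset_biUnion_of_mem φ (mem_powersetCard.2 ⟨Subset.rfl, e⟩)))
    rw [hφ X e]
    exact (f ⟨X, e⟩).2.ge

theorem stahl_lin (n m a b N : ℕ) (hm : 2 * n ≤ m) (hb : 1 ≤ b) (hbn : b < n)
    (h : Nonempty (kneser m n →g kneser N (a * n + b))) :
    ((a + 1) * m : ℝ) - 2 * (n - b) *
      min 12 (1 + ∑ j ∈ range (m - 2 * n), (1 : ℝ) / (max j (2 * n) : ℕ)) ≤ N := by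
  obtain ⟨f⟩ := h
  obtain ⟨C, h⟩ := sys_of_hom (by omega) f
  have hr : ((a + 1 : ℕ) * n - (a * n + b : ℕ) : ℤ) < n := by push_cast; linarith
  have h1 : (0 : ℝ) ≤ n - b := sub_nonneg.2 (by exact_mod_cast hbn.le)
  have h2 : ∀ A M₀, 2 * n + M₀ ≤ m → (∀ j, j ≤ M₀ → (sp (a + 1) C (range (n + j)) : ℝ) ≤
      (((a + 1 : ℕ) * n - (a * n + b : ℕ) : ℤ) * Fintype.card (Equiv.Perm (Fin m)) : ℤ) * A) →
      ((a + 1) * m : ℝ) - 2 * (n - b) *
        (A + ∑ j ∈ Ico M₀ (m - 2 * n), (1 : ℝ) / (max j (2 * n) : ℕ)) ≤ N := fun A M₀ c1 c2 => by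
    have := core (a + 1) h hr (by omega) univ (fun _ => subset_univ _) A M₀ c1 c2
    rw [card_univ, Fintype.card_fin] at this
    generalize A + ∑ j ∈ Ico M₀ (m - 2 * n), (1 : ℝ) / (max j (2 * n) : ℕ) = w at this ⊢
    push_cast at this
    linarith
  have a1 := h2 1 0 hm fun j hj => by
    rw [Nat.le_zero.1 hj, mul_one]
    exact_mod_cast sp_base (a + 1) h (by omega)
  rw [← range_eq_Ico] at a1
  rcases le_total (1 + ∑ j ∈ range (m - 2 * n), (1 : ℝ) / (max j (2 * n) : ℕ)) 12 with c | c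
  · rwa [min_eq_right c]
  rw [min_eq_left c]
  rcases le_total ((a + 1) * m) N with d | d
  · have : ((a + 1) * m : ℝ) ≤ N := by exact_mod_cast d
    linarith
  have a2 : 3 * 2 ^ 13 * n ≤ m := by
    by_contra e
    have b1 := sum_log (2 * n) 14 (u := 2 * n - 1) (v := 3 * 2 ^ 13 * n) (by omega) (by omega)
    have b2 : ∑ j ∈ range (2 * n), (1 : ℝ) / (max j (2 * n) : ℕ) = 1 := by
      rw [sum_congr rfl (g := fun _ => (1 : ℝ) / (2 * n : ℕ)) fun j hj => by
        rw [max_eq_right (mem_range.1 hj).le], sum_const, card_range, nsmul_eq_mul,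
        mul_one_div_cancel (Nat.cast_ne_zero.2 (by omega))]
    have b3 := sum_le_sum_of_subset_of_nonneg (f := fun j => (1 : ℝ) / (max j (2 * n) : ℕ))
      (range_subset_range.2 (show m - 2 * n ≤ 3 * 2 ^ 13 * n + 1 by omega))
      fun _ _ _ => by positivity
    rw [← sum_range_add_sum_Ico _ (show 2 * n ≤ 3 * 2 ^ 13 * n + 1 by omega), b2] at b3
    rw [show 2 * n - 1 + 1 = 2 * n by omega, Nat.cast_ofNat] at b1
    linarith
  have a3 := h2 (4 / 3) (m / 2 ^ 13 - n) (by omega) fun j hj =>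
    low (a + 1) h hr (fun _ => subset_univ _) (by rwa [card_univ, Fintype.card_fin]) (by omega)
      (by omega) (by omega)
  have a4 := sum_log (2 * n) 15 (u := m / 2 ^ 13 - n - 1) (v := m - 2 * n - 1) (by omega) (by omega)
  rw [show m / 2 ^ 13 - n - 1 + 1 = m / 2 ^ 13 - n by omega,
    show m - 2 * n - 1 + 1 = m - 2 * n by omega, Nat.cast_ofNat] at a4
  nlinarith

end Pool.Agent.P.MP_a66f6f_co.Ped
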