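import Pool.Agent.P.MP_a66f6f_co.Ped.Walk

/-!
Averaging over all labellings of the ground set, and the binomial sums.
-/

namespace Pool.Agent.P.MP_a66f6f_co.Ped

open Finset

set_option linter.unusedSectionVars false

/-- the sum of `u` over the sizes of all subsets of an `M`-set -/
def bs (M : ℕ) (u : ℕ → ℤ) : ℤ := ∑ Y ∈ (range M).powerset, u Y.card

theorem bs_eq (F : Finset ℕ) (u : ℕ → ℤ) : ∑ Y ∈ F.powerset, u Y.card = bs F.card u := by
  rw [bs, sum_powerset_apply_card, sum_powerset_apply_card, card_range]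

theorem bs_succ (M : ℕ) (u : ℕ → ℤ) : bs (M + 1) u = bs M u + bs M fun j => u (j + 1) := by
  rw [bs, range_add_one, sum_powerset_insert notMem_range_self]
  congr 1
  refine sum_congr rfl fun Y hY => ?_
  rw [card_insert_of_notMem fun hx => notMem_range_self (mem_powerset.1 hY hx)]

theorem bs_rev (M : ℕ) (u : ℕ → ℤ) : bs M (fun j => u (M - j)) = bs M u := by
  unfold bs
  refine sum_bij' (fun Y _ => range M \ Y) (fun Y _ => range M \ Y) (by simp) (by simp)
    (fun Y hY => Finset.sdiff_sdiff_eq_self (mem_powerset.1 hY))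
    (fun Y hY => Finset.sdiff_sdiff_eq_self (mem_powerset.1 hY)) fun Y hY => ?_
  rw [card_sdiff_of_subset (mem_powerset.1 hY), card_range]

theorem bs_le {M : ℕ} {u v : ℕ → ℤ} (h : ∀ j, j ≤ M → u j ≤ v j) : bs M u ≤ bs M v :=
  sum_le_sum fun Y hY => h _ (by simpa using card_le_card (mem_powerset.1 hY))

theorem bs_congr {M : ℕ} {u v : ℕ → ℤ} (h : ∀ j, j ≤ M → u j = v j) : bs M u = bs M v :=
  le_antisymm (bs_le fun j hj => (h j hj).le) (bs_le fun j hj => (h j hj).ge)

theorem bs_add (M : ℕ) (u v : ℕ → ℤ) : bs M (fun j => u j + v j) = bs M u + bs M v :=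
  sum_add_distrib

theorem bs_sub (M : ℕ) (u v : ℕ → ℤ) : bs M (fun j => u j - v j) = bs M u - bs M v :=
  sum_sub_distrib _ _

theorem bs_const (M : ℕ) (c : ℤ) : bs M (fun _ => c) = 2 ^ M * c := by
  simp [bs]

variable {β : Type*} [DecidableEq β] {m n k q : ℕ}

/-- the points whose label lies in `X` -/
def pull (σ : Equiv.Perm (Fin m)) (X : Finset ℕ) : Finset (Fin m) :=
  univ.filter fun i => (σ i).val ∈ X

theorem card_pull (σ : Equiv.Perm (Fin m)) {X : Finset ℕ} (h : X ⊆ range m) :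
    (pull σ X).card = X.card := by
  refine card_bij (fun i _ => (σ i).val) (fun i hi => (mem_filter.1 hi).2)
    (fun i _ j _ e => σ.injective (Fin.ext e)) fun x hx => ?_
  exact ⟨σ.symm ⟨x, mem_range.1 (h hx)⟩, by simp [pull, hx], by simp⟩

theorem Sys.pull {C : Finset (Fin m) → Finset β} (h : Sys C univ n k) (σ : Equiv.Perm (Fin m)) :
    Sys (fun X => C (pull σ X)) (range m) n k where
  mono X Y e := h.mono _ _ fun i hi => by
    simp only [Ped.pull, mem_filter, mem_univ, true_and] at hi ⊢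
    exact e hi
  disj X Y e := h.disj _ _ (disjoint_left.2 fun i c1 c2 =>
    disjoint_left.1 e (mem_filter.1 c1).2 (mem_filter.1 c2).2)
  big X e1 e2 := h.big _ (subset_univ _) (by rw [card_pull σ e1, e2])

theorem exists_perm {X X' : Finset ℕ} (h : X ⊆ range m) (h' : X' ⊆ range m)
    (e : X.card = X'.card) :
    ∃ π : Equiv.Perm (Fin m), ∀ i, (π i).val ∈ X ↔ i.val ∈ X' := by
  obtain ⟨π, hπ⟩ := Equiv.Perm.exists_map_finset_eq (pull (1 : Equiv.Perm (Fin m)) X') (pull 1 X)
    (by rw [card_pull _ h, card_pull _ h', e])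
  refine ⟨π, fun i => ?_⟩
  have : π i ∈ pull (1 : Equiv.Perm (Fin m)) X ↔ i ∈ pull (1 : Equiv.Perm (Fin m)) X' := by
    rw [← hπ]
    exact mem_map' π.toEmbedding
  simpa [pull] using this

theorem exists_perm2 {X X' : Finset ℕ} {y y' : ℕ} (h : X ⊆ range m) (h' : X' ⊆ range m)
    (e : X.card = X'.card) (hy : y < m) (hy' : y' < m) (c : y ∉ X) (c' : y' ∉ X') :
    ∃ π : Equiv.Perm (Fin m), (∀ i, (π i).val ∈ X ↔ i.val ∈ X') ∧
      ∀ i, (π i).val ∈ insert y X ↔ i.val ∈ insert y' X' := by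
  obtain ⟨π, hπ⟩ := exists_perm h h' e
  have a1 : (π ⟨y', hy'⟩).val ∉ X := fun hx => c' ((hπ _).1 hx)
  refine ⟨Equiv.swap (π ⟨y', hy'⟩) ⟨y, hy⟩ * π, ?_⟩
  have a2 : ∀ i, ((Equiv.swap (π ⟨y', hy'⟩) ⟨y, hy⟩ * π) i).val ∈ X ↔ i.val ∈ X' := fun i => by
    rw [← hπ, Equiv.Perm.mul_apply, Equiv.swap_apply_def]
    split_ifs with d1 d2
    · rw [d1]; simp [a1, c]
    · rw [d2]; simp [a1, c]
    · rfl
  refine ⟨a2, fun i => ?_⟩
  rw [mem_insert, mem_insert, a2]
  refine or_congr_left ?_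
  have a3 : (Equiv.swap (π ⟨y', hy'⟩) ⟨y, hy⟩ * π) ⟨y', hy'⟩ = ⟨y, hy⟩ := by simp
  constructor
  · intro d
    have : (Equiv.swap (π ⟨y', hy'⟩) ⟨y, hy⟩ * π) i = ⟨y, hy⟩ := Fin.ext d
    exact congrArg Fin.val ((Equiv.injective _) (this.trans a3.symm))
  · intro d
    have : i = ⟨y', hy'⟩ := Fin.ext d
    rw [this, a3]

theorem pull_mul {X X' : Finset ℕ} {π : Equiv.Perm (Fin m)}
    (h : ∀ i, (π i).val ∈ X ↔ i.val ∈ X') (σ : Equiv.Perm (Fin m)) :
    pull (π * σ) X = pull σ X' := by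
  ext i
  simp [pull, h]

variable (C : Finset (Fin m) → Finset β) (q)

/-- a function of the gain, summed over all labellings -/
def sg (u : ℤ → ℤ) (X : Finset ℕ) (y : ℕ) : ℤ :=
  ∑ σ : Equiv.Perm (Fin m), u (gain (fun Z => C (pull σ Z)) q X y)

/-- the deficiency, summed over all labellings -/
def sp (X : Finset ℕ) : ℤ :=
  ∑ σ : Equiv.Perm (Fin m), ((q : ℤ) * X.card - (C (pull σ X)).card)

theorem sg_eq (u : ℤ → ℤ) {X : Finset ℕ} {y : ℕ} (h : X ⊆ range m) (hy : y < m) (c : y ∉ X) :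
    sg q C u X y = sg q C u (range X.card) X.card := by
  have a1 : X.card < m := by
    have := card_le_card (insert_subset (mem_range.2 hy) h)
    rwa [card_insert_of_notMem c, card_range] at this
  obtain ⟨π, b1, b2⟩ := exists_perm2 h (range_subset_range.2 a1.le) (card_range _).symm hy a1 c
    notMem_range_self
  unfold sg
  rw [← Equiv.sum_comp (Equiv.mulLeft π)]
  refine sum_congr rfl fun σ _ => ?_
  simp only [gain, Equiv.coe_mulLeft, pull_mul b1, pull_mul b2]

theorem sp_eq {X : Finset ℕ} (h : X ⊆ range m) : sp q C X = sp q C (range X.card) := by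
  obtain ⟨π, b1⟩ := exists_perm h
    (range_subset_range.2 (by simpa using card_le_card h)) (card_range _).symm
  unfold sp
  rw [← Equiv.sum_comp (Equiv.mulLeft π)]
  refine sum_congr rfl fun σ _ => ?_
  simp only [Equiv.coe_mulLeft, pull_mul b1, card_range]

theorem sp_succ (l : ℕ) : sp q C (range (l + 1)) = sp q C (range l) +
    (sg q C (fun x => max x 0) (range l) l - sg q C (fun x => max (-x) 0) (range l) l) := by
  unfold sp sg
  rw [← sum_sub_distrib, ← sum_add_distrib]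
  refine sum_congr rfl fun σ _ => ?_
  rw [max_zero_sub_max_neg_zero_eq_self, gain, ← range_add_one, card_range, card_range]
  push_cast
  ring

end Pool.Agent.P.MP_a66f6f_co.Ped
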