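import Mathlib

/-!
Walks in the cube of subsets that add a fixed number of new points, and the pedestrian argument.
-/

namespace Pool.Agent.P.MP_a66f6f_co.Ped

open Finset

set_option linter.unusedSectionVars false

variable {α β : Type*} [DecidableEq α] [DecidableEq β]

/-- a monotone assignment of colour sets; disjoint sets get disjoint colour sets and the
`n`-subsets of `V` get at least `k` colours -/
structure Sys (C : Finset α → Finset β) (V : Finset α) (n k : ℕ) : Prop where
  mono : ∀ X Y, X ⊆ Y → C X ⊆ C Y
  disj : ∀ X Y, Disjoint X Y → Disjoint (C X) (C Y)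
  big : ∀ X, X ⊆ V → X.card = n → k ≤ (C X).card

/-- `q` minus the number of new colours when `y` is added to `X` -/
def gain (C : Finset α → Finset β) (q : ℕ) (X : Finset α) (y : α) : ℤ :=
  q - (((C (insert y X)).card : ℤ) - (C X).card)

/-- a walk from `X` to `Y` has added the set `U` with total gain `g` -/
def Inv (C : Finset α → Finset β) (q : ℕ) (X U : Finset α) (g : ℤ) (Y : Finset α) : Prop :=
  Disjoint X U ∧ U ⊆ Y ∧ ((C Y \ C X).card : ℤ) + g ≤ q * U.card

variable {C : Finset α → Finset β} {V : Finset α} {n k q : ℕ}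

theorem Inv.start (X : Finset α) : Inv C q X ∅ 0 X := by
  simp [Inv]

theorem Inv.rem (h : Sys C V n k) {X U Y Y' : Finset α} {g : ℤ} (i : Inv C q X U g Y)
    (h1 : Y' ⊆ Y) (h2 : U ⊆ Y') : Inv C q X U g Y' := by
  refine ⟨i.1, h2, le_trans ?_ i.2.2⟩
  have : (C Y' \ C X).card ≤ (C Y \ C X).card :=
    card_le_card (sdiff_subset_sdiff (h.mono _ _ h1) Subset.rfl)
  omega

theorem Inv.add (h : Sys C V n k) {X U Y : Finset α} {g : ℤ} (i : Inv C q X U g Y) {y : α}
    (h1 : y ∉ X) (h2 : y ∉ U) : Inv C q X (insert y U) (g + gain C q Y y) (insert y Y) := by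
  refine ⟨disjoint_insert_right.2 ⟨h1, i.1⟩, insert_subset_insert _ i.2.1, ?_⟩
  have a1 := h.mono Y (insert y Y) (subset_insert _ _)
  have a2 : C (insert y Y) \ C X ⊆ (C Y \ C X) ∪ (C (insert y Y) \ C Y) := by
    intro c hc
    simp only [mem_sdiff, mem_union] at hc ⊢
    tauto
  have a3 := (card_le_card a2).trans (card_union_le _ _)
  have a4 := card_sdiff_add_card_eq_card a1
  have a5 := i.2.2
  rw [card_insert_of_notMem h2, gain]
  push_cast
  have a6 : ((C (insert y Y) \ C X).card : ℤ) ≤
      (C Y \ C X).card + (C (insert y Y) \ C Y).card := by exact_mod_cast a3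
  have a7 : ((C (insert y Y) \ C Y).card : ℤ) + (C Y).card = (C (insert y Y)).card := by
    exact_mod_cast a4
  linarith

theorem Inv.fin (h : Sys C V n k) {X U Y : Finset α} {g : ℤ} (i : Inv C q X U g Y)
    (h1 : U ⊆ V) (h2 : U.card = n) : g ≤ q * n - k := by
  have a1 : C U ⊆ C Y \ C X :=
    subset_sdiff.2 ⟨h.mono _ _ i.2.1, (h.disj _ _ i.1).symm⟩
  have a2 := (h.big U h1 h2).trans (card_le_card a1)
  have a3 := i.2.2
  rw [h2] at a3
  have a4 : (k : ℤ) ≤ (C Y \ C X).card := by exact_mod_cast a2
  linarith

/-- the pedestrian argument: the directions in `S` are handled in turn, and the two ends of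
every edge of positive gain are exchanged -/
theorem pedestrian (h : Sys C V n k) (hr : (q * n - k : ℤ) < n) (hn : 0 < n) (F B : Finset α)
    (hF : F ⊆ V) (hB : Disjoint B F) (S : Finset α) (hS : S ⊆ F) :
    ∃ g : Finset α → ℤ, (∀ Y, Y ⊆ F → ∃ X U, Inv C q X U (g Y) (B ∪ Y) ∧ U ⊆ S ∧
        (U.card : ℤ) ≤ g Y ∧ U.card < n ∧ X ⊆ S ∪ (B ∪ Y)) ∧
      ∑ Y ∈ F.powerset, g Y =
        ∑ i ∈ S, ∑ Y ∈ (F.erase i).powerset, max (gain C q (B ∪ Y) i) 0 := by
  induction S using Finset.induction_on with
  | empty =>
    exact ⟨fun _ => 0, fun Y _ => ⟨B ∪ Y, ∅, Inv.start _, Subset.rfl, by simp, by simpa using hn,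
      subset_union_right⟩, by simp⟩
  | insert i S hi ih =>
    obtain ⟨g, g1, g2⟩ := ih ((subset_insert _ _).trans hS)
    have hiF : i ∈ F := hS (mem_insert_self _ _)
    have hiB : i ∉ B := fun hb => disjoint_left.1 hB hb hiF
    refine ⟨fun Y => if 1 ≤ gain C q (B ∪ Y.erase i) i then
      (if i ∈ Y then g (Y.erase i) + gain C q (B ∪ Y.erase i) i else g (insert i Y)) else g Y,
      fun Y hY => ?_, ?_⟩
    · by_cases c1 : 1 ≤ gain C q (B ∪ Y.erase i) i
      · by_cases c2 : i ∈ Y
        · simp only [if_pos c1, if_pos c2]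
          obtain ⟨X, U, a1, a2, a3, a4, a5⟩ := g1 (Y.erase i) ((erase_subset _ _).trans hY)
          have b1 : i ∉ X := fun hx => by
            have := a5 hx
            simp [hi, hiB] at this
          have b2 : i ∉ U := fun hx => hi (a2 hx)
          have b3 := a1.add h b1 b2
          have b4 : insert i (B ∪ Y.erase i) = B ∪ Y := by
            rw [← union_insert, insert_erase c2]
          have b5 : (insert i U).card = U.card + 1 := card_insert_of_notMem b2
          rw [b4] at b3
          refine ⟨X, insert i U, b3, insert_subset_insert _ a2, by rw [b5]; push_cast; linarith,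
            ?_, a5.trans (union_subset_union (subset_insert _ _)
              (union_subset_union Subset.rfl (erase_subset _ _)))⟩
          by_contra hc
          have b6 : (insert i U).card = n := by omega
          have b7 := b3.fin h ((insert_subset_insert _ a2).trans (hS.trans hF)) b6
          have b8 : (U.card : ℤ) + 1 = n := by exact_mod_cast b5.symm.trans b6
          linarith
        · simp only [if_pos c1, if_neg c2]
          obtain ⟨X, U, a1, a2, a3, a4, a5⟩ := g1 (insert i Y) (insert_subset hiF hY)
          refine ⟨X, U, a1.rem h (union_subset_union Subset.rfl (subset_insert _ _)) ?_,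
            a2.trans (subset_insert _ _), a3, a4, ?_⟩
          · intro x hx
            have b1 := a1.2.1 hx
            have b2 : x ≠ i := fun e => hi (e ▸ a2 hx)
            simp only [mem_union, mem_insert] at b1 ⊢
            tauto
          · intro x hx
            have b1 := a5 hx
            simp only [mem_union, mem_insert] at b1 ⊢
            tauto
      · simp only [if_neg c1]
        obtain ⟨X, U, a1, a2, a3, a4, a5⟩ := g1 Y hY
        exact ⟨X, U, a1, a2.trans (subset_insert _ _), a3, a4,
          a5.trans (union_subset_union (subset_insert _ _) Subset.rfl)⟩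
    · rw [sum_insert hi, ← g2]
      have e : F = insert i (F.erase i) := (insert_erase hiF).symm
      have e2 : i ∉ F.erase i := notMem_erase _ _
      generalize F.erase i = G at e e2
      subst e
      rw [sum_powerset_insert e2, sum_powerset_insert e2, ← sum_add_distrib, ← sum_add_distrib,
        ← sum_add_distrib]
      refine sum_congr rfl fun Y hY => ?_
      have b1 : i ∉ Y := fun hx => e2 (mem_powerset.1 hY hx)
      rw [erase_insert b1, erase_eq_of_notMem b1]
      simp only [if_neg b1, if_pos (mem_insert_self i Y)]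
      split_ifs with c
      · rw [max_eq_left (by linarith)]; ring
      · rw [max_eq_right (by linarith)]; ring

variable {D : Finset ℕ → Finset β} {W : Finset ℕ}

/-- forced exchange steps along the sliding window -/
theorem pad (h : Sys D W n k) {X U Y : Finset ℕ} {g : ℤ} (i : Inv D q X U g (Ico 0 n ∪ Y))
    (hU : U ⊆ Y) (hY : ∀ y ∈ Y, 2 * n ≤ y) (hX : ∀ x ∈ X, x < n ∨ 2 * n ≤ x) (j : ℕ) (hj : j ≤ n) :
    Inv D q X (Ico n (n + j) ∪ U) (g + ∑ t ∈ range j, gain D q (Ico t (t + n) ∪ Y) (n + t))
      (Ico j (j + n) ∪ Y) := by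
  induction j with
  | zero => simpa using i
  | succ j ih =>
    have a1 := (ih (by omega)).add h (y := n + j) (fun hx => by have := hX _ hx; omega)
      (fun hx => by
        rcases mem_union.1 hx with c | c
        · simp at c
        · have := hY _ (hU c); omega)
    have a2 : insert (n + j) (Ico n (n + j) ∪ U) = Ico n (n + (j + 1)) ∪ U := by
      ext x
      simp only [mem_insert, mem_union, mem_Ico]
      constructor
      · rintro (c | c | c)
        · left; omega
        · left; omega
        · right; exact c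
      · rintro (c | c)
        · omega
        · right; right; exact c
    rw [a2, add_assoc, ← sum_range_succ (fun t => gain D q (Ico t (t + n) ∪ Y) (n + t))] at a1
    refine a1.rem h ?_ ?_
    · intro x hx
      simp only [mem_insert, mem_union, mem_Ico] at hx ⊢
      rcases hx with c | c
      · omega
      · right; right; exact c
    · intro x hx
      simp only [mem_union, mem_Ico] at hx ⊢
      rcases hx with c | c
      · left; omega
      · right; exact hU c

/-- only forced steps -/
theorem forced (h : Sys D W n k) (hW : Ico n (2 * n) ⊆ W) {Y : Finset ℕ}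
    (hY : ∀ y ∈ Y, 2 * n ≤ y) :
    ∑ t ∈ range n, gain D q (Ico t (t + n) ∪ Y) (n + t) ≤ q * n - k := by
  have a1 := pad (q := q) h (Inv.start (Ico 0 n ∪ Y)) (empty_subset _) hY (fun x hx => by
    rcases mem_union.1 hx with c | c
    · left; simpa using c
    · right; exact hY _ c) n le_rfl
  rw [zero_add, union_empty] at a1
  exact a1.fin h (by rwa [← two_mul]) (by simp)

/-- pedestrians followed by forced steps -/
theorem both (h : Sys D W n k) (hr : (q * n - k : ℤ) < n) (hn : 0 < n) (hW : Ico n (2 * n) ⊆ W)
    (F Z : Finset ℕ) (hF : F ⊆ W) (hF2 : ∀ y ∈ F, 2 * n ≤ y) (hZ : ∀ y ∈ Z, 2 * n ≤ y)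
    (hZF : Disjoint Z F) :
    ∑ i ∈ F, ∑ Y ∈ (F.erase i).powerset, max (gain D q ((Ico 0 n ∪ Z) ∪ Y) i) 0 -
      ∑ Y ∈ F.powerset, ∑ t ∈ range n, max (-gain D q (Ico t (t + n) ∪ Y) (n + t)) 0 ≤
      2 ^ F.card * (q * n - k) := by
  have hB : Disjoint (Ico 0 n ∪ Z) F := by
    refine disjoint_union_left.2 ⟨disjoint_left.2 fun x c1 c2 => ?_, hZF⟩
    have := hF2 _ c2
    simp only [mem_Ico] at c1
    omega
  obtain ⟨g, g1, g2⟩ := pedestrian h hr hn F _ hF hB F Subset.rfl
  rw [← g2, ← sum_sub_distrib]
  refine (sum_le_card_nsmul _ _ (q * n - k : ℤ) fun Y hY => ?_).trans (by simp)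
  have hY' := mem_powerset.1 hY
  obtain ⟨X, U, a1, a2, -, a4, a5⟩ := g1 Y hY'
  have hU : U ⊆ Y := fun x hx =>
    (mem_union.1 (a1.2.1 hx)).resolve_left fun c => disjoint_left.1 hB c (a2 hx)
  have b1 := pad h (a1.rem h (union_subset_union subset_union_left Subset.rfl)
    (hU.trans subset_union_right)) hU (fun y hy => hF2 _ (hY' hy)) (fun x hx => by
      have := a5 hx
      simp only [mem_union, mem_Ico] at this
      rcases this with c | (c | c) | c
      · right; exact hF2 _ c
      · left; omega
      · right; exact hZ _ c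
      · right; exact hF2 _ (hY' c)) (n - U.card) (by omega)
  have b2 := b1.fin h (union_subset (Subset.trans (Ico_subset_Ico le_rfl (by omega)) hW)
    (a2.trans hF)) (by
      rw [card_union_of_disjoint, Nat.card_Ico]
      · omega
      · refine disjoint_left.2 fun x c1 c2 => ?_
        have := hF2 _ (a2 c2)
        simp only [mem_Ico] at c1
        omega)
  have b3 : ∑ t ∈ range (n - U.card), -gain D q (Ico t (t + n) ∪ Y) (n + t) ≤
      ∑ t ∈ range n, max (-gain D q (Ico t (t + n) ∪ Y) (n + t)) 0 :=
    (sum_le_sum fun t _ => le_max_left _ 0).trans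
      (sum_le_sum_of_subset_of_nonneg (range_subset_range.2 (by omega))
        fun t _ _ => le_max_right _ _)
  rw [sum_neg_distrib] at b3
  linarith

end Pool.Agent.P.MP_a66f6f_co.Ped
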